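import Pool.Agent.U156.LZ.Cmp

/-!
# Li coefficients with a large base point: counting the zeros, abstract setting

The files `Ab`, `As`, `Cm` follow `Pool.Agent.U156.LZ.Cnt`, `Asym`, `Cmp` (the case of the zeta function); the
zeros are given by a multiplicity function `M` with a Riemann-von Mangoldt formula with an arbitrary constant.
-/

set_option autoImplicit false

open Complex Filter Topology Finset
open scoped ComplexConjugate

namespace Pool.Agent.U742.LA

open Pool.Agent.N831.LI (Zs Dn)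
open Pool.Agent.U156.LZ (log_sq log_le_self dya_log exists_dya)

noncomputable section

variable {M : ℂ → ℝ}

/-- the zeros with `T1 < im ≤ T2` -/
def zw (M : ℂ → ℝ) (T1 T2 : ℝ) : Set ℂ := {z | M z ≠ 0 ∧ T1 < z.im ∧ z.im ≤ T2}

/-- number of zeros with `T1 < im ≤ T2` -/
def Nr (M : ℂ → ℝ) (T1 T2 : ℝ) : ℝ := ∑ᶠ z ∈ zw M T1 T2, M z

lemma fin_le (hM : Zs M) (T : ℝ) (hT : 0 ≤ T) : {z : ℂ | M z ≠ 0 ∧ |z.im| ≤ T}.Finite := by
  obtain ⟨C, hC, h⟩ := hM.cnt 2 (by norm_num)
  by_contra hinf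
  obtain ⟨n, hn⟩ := exists_nat_gt (C * (1 + T) ^ (2 : ℝ))
  obtain ⟨S, hS, hc⟩ := Set.Infinite.exists_subset_card_eq hinf n
  have h1 := h S
  have h2 : ∑ z ∈ S, 1 / (1 + T) ^ (2 : ℝ) ≤ ∑ z ∈ S, M z / (1 + |z.im|) ^ (2 : ℝ) := by
    refine Finset.sum_le_sum fun z hz => ?_
    have h3 := hS hz
    have h4 := hM.one z h3.1
    apply div_le_div₀ (hM.nn z) h4 (by positivity)
    exact Real.rpow_le_rpow (by positivity) (by linarith [h3.2]) (by norm_num)
  rw [Finset.sum_const, hc, nsmul_eq_mul, mul_one_div] at h2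
  have h3 := h2.trans h1
  rw [div_le_iff₀ (by positivity)] at h3
  linarith

lemma zw_fin (hM : Zs M) (T1 T2 : ℝ) : (zw M T1 T2).Finite := by
  refine (fin_le hM (|T1| + |T2|) (by positivity)).subset ?_
  rintro z ⟨h1, h2, h3⟩
  refine ⟨h1, ?_⟩
  have a1 := neg_abs_le T1
  have a2 := le_abs_self T2
  have a3 := abs_nonneg T1
  have a4 := abs_nonneg T2
  rw [abs_le]
  constructor <;> linarith

theorem Nr_eq (hM : Zs M) (T1 T2 : ℝ) : ∃ S : Finset ℂ, (∀ z, z ∈ S ↔ M z ≠ 0 ∧ T1 < z.im ∧ z.im ≤ T2) ∧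
    Nr M T1 T2 = ∑ z ∈ S, M z := by
  refine ⟨(zw_fin hM T1 T2).toFinset, fun z => ?_, ?_⟩
  · rw [Set.Finite.mem_toFinset]
    rfl
  · unfold Nr
    exact finsum_mem_eq_finite_toFinset_sum _ (zw_fin hM T1 T2)

lemma Nr_nn (hM : Zs M) (T1 T2 : ℝ) : 0 ≤ Nr M T1 T2 := by
  obtain ⟨S, -, h⟩ := Nr_eq hM T1 T2
  rw [h]
  exact Finset.sum_nonneg fun z _ => hM.nn z

lemma Nr_mono (hM : Zs M) {a b a' b' : ℝ} (ha : a' ≤ a) (hb : b ≤ b') : Nr M a b ≤ Nr M a' b' := by
  obtain ⟨S, hS, h⟩ := Nr_eq hM a b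
  obtain ⟨S', hS', h'⟩ := Nr_eq hM a' b'
  rw [h, h']
  refine Finset.sum_le_sum_of_subset_of_nonneg (fun z hz => ?_) fun z _ _ => hM.nn z
  obtain ⟨h1, h2, h3⟩ := (hS z).1 hz
  exact (hS' z).2 ⟨h1, by linarith, by linarith⟩

lemma Nr_add (hM : Zs M) {a b c : ℝ} (hab : a ≤ b) (hbc : b ≤ c) : Nr M a c = Nr M a b + Nr M b c := by
  classical
  obtain ⟨S1, hS1, h1⟩ := Nr_eq hM a b
  obtain ⟨S2, hS2, h2⟩ := Nr_eq hM b c
  obtain ⟨S3, hS3, h3⟩ := Nr_eq hM a c
  rw [h1, h2, h3, ← Finset.sum_union]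
  · refine Finset.sum_congr ?_ fun _ _ => rfl
    ext z
    rw [Finset.mem_union, hS1, hS2, hS3]
    constructor
    · rintro ⟨a1, a2, a3⟩
      rcases le_or_gt z.im b with h | h
      · exact Or.inl ⟨a1, a2, h⟩
      · exact Or.inr ⟨a1, h, a3⟩
    · rintro (⟨a1, a2, a3⟩ | ⟨a1, a2, a3⟩)
      · exact ⟨a1, a2, by linarith⟩
      · exact ⟨a1, by linarith, a3⟩
  · rw [Finset.disjoint_left]
    intro z hz hz'
    have a1 := ((hS1 z).1 hz).2.2
    have a2 := ((hS2 z).1 hz').2.1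
    linarith

lemma sub_Nr (hM : Zs M) {T1 T2 : ℝ} (S : Finset ℂ) (hS : ∀ z ∈ S, T1 < z.im ∧ z.im ≤ T2) :
    ∑ z ∈ S, M z ≤ Nr M T1 T2 := by
  classical
  obtain ⟨P, hP1, hP2⟩ := Nr_eq hM T1 T2
  rw [hP2]
  rw [← Finset.sum_filter_add_sum_filter_not S (fun z => M z ≠ 0)]
  have h1 : ∑ z ∈ S.filter (fun z => ¬ M z ≠ 0), M z = 0 :=
    Finset.sum_eq_zero fun z hz => not_not.1 (Finset.mem_filter.1 hz).2
  rw [h1, add_zero]
  refine Finset.sum_le_sum_of_subset_of_nonneg (fun z hz => ?_) fun z _ _ => hM.nn z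
  rw [Finset.mem_filter] at hz
  exact (hP1 z).2 ⟨hz.2, (hS z hz.1).1, (hS z hz.1).2⟩

/-- the zeros have a Riemann-von Mangoldt formula with constant `d` -/
structure Rm (M : ℂ → ℝ) (d : ℝ) : Prop where
  zs : Zs M
  dpos : 0 < d
  short : ∃ C : ℝ, 0 < C ∧ ∀ T : ℝ, 10 ≤ T → ∀ H : ℝ, 0 ≤ H → H ≤ T →
    |Nr M T (T + H) - H * Real.log T * d| ≤ C * T

variable {d : ℝ}

/-- from large `T` to all `T` -/
lemma Rm.of (hM : Zs M) (hd : 0 < d) {C T0 : ℝ} (hC : 0 < C) (h : ∀ T : ℝ, T0 ≤ T → ∀ H : ℝ, 0 ≤ H → H ≤ T →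
    |Nr M T (T + H) - H * Real.log T * d| ≤ C * T) : Rm M d := by
  obtain ⟨T1, hT1⟩ : ∃ T1 : ℝ, T1 = max T0 10 := ⟨_, rfl⟩
  have hT10 : 10 ≤ T1 := by rw [hT1]; exact le_max_right _ _
  have hT11 : T0 ≤ T1 := by rw [hT1]; exact le_max_left _ _
  have hl1 : 0 ≤ Real.log T1 := Real.log_nonneg (by linarith)
  have hN := Nr_nn hM 0 (2 * T1)
  refine ⟨hM, hd, C + Nr M 0 (2 * T1) + T1 * Real.log T1 * d, by positivity, fun T hT H h0 hH => ?_⟩
  have hT0 : 0 < T := by linarith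
  have hx : 0 ≤ T1 * Real.log T1 * d := by positivity
  rcases le_total T1 T with h2 | h2
  · refine (h T (hT11.trans h2) H h0 hH).trans ?_
    gcongr
    linarith
  · have h3 : Nr M T (T + H) ≤ Nr M 0 (2 * T1) := Nr_mono hM hT0.le (by linarith)
    have h4 := Nr_nn hM T (T + H)
    have hlT : 0 ≤ Real.log T := Real.log_nonneg (by linarith)
    have h5 : H * Real.log T * d ≤ T1 * Real.log T1 * d := by
      have : Real.log T ≤ Real.log T1 := Real.log_le_log hT0 h2
      gcongr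
      linarith
    have h6 : 0 ≤ H * Real.log T * d := by positivity
    have h7 : (Nr M 0 (2 * T1) + T1 * Real.log T1 * d) * 1 ≤ (Nr M 0 (2 * T1) + T1 * Real.log T1 * d) * T := by
      gcongr
      linarith
    have h8 : 0 < C * T := by positivity
    rw [abs_le]
    constructor <;> nlinarith

/-- the number of zeros in `(A, t]`, `t ≤ 2 ^ k A` -/
theorem chain (hR : Rm M d) (k : ℕ) : ∃ C : ℝ, 0 < C ∧ ∀ A : ℝ, 10 ≤ A → ∀ t : ℝ, A ≤ t → t ≤ 2 ^ k * A →
    |Nr M A t - (t - A) * Real.log A * d| ≤ C * t := by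
  obtain ⟨C0, hC0, h0⟩ := hR.short
  have hd := hR.dpos
  induction k with
  | zero =>
    refine ⟨C0, hC0, fun A hA t h1 h2 => ?_⟩
    rw [pow_zero, one_mul] at h2
    have h3 := h0 A hA (t - A) (by linarith) (by linarith)
    rw [add_sub_cancel] at h3
    refine h3.trans ?_
    gcongr
  | succ k ih =>
    obtain ⟨C, hC, ih⟩ := ih
    refine ⟨C + C0 + k * d, by positivity, fun A hA t h1 h2 => ?_⟩
    have hk1 : (1 : ℝ) ≤ 2 ^ k := one_le_pow₀ (by norm_num)
    have ht0 : 0 ≤ t := by linarith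
    rcases le_total t (2 ^ k * A) with h3 | h3
    · refine (ih A hA t h1 h3).trans ?_
      have : 0 ≤ (C0 + k * d) * t := by positivity
      nlinarith
    · set B : ℝ := 2 ^ k * A with hB
      have hAB : A ≤ B := by rw [hB]; nlinarith
      have e1 := Nr_add hR.zs hAB h3
      have e2 := ih A hA B hAB le_rfl
      have e3 := h0 B (by linarith) (t - B) (by linarith) (by
        rw [pow_succ] at h2
        nlinarith)
      rw [add_sub_cancel] at e3
      have e4 : Real.log B = k * Real.log 2 + Real.log A := by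
        rw [hB, Real.log_mul (by positivity) (by linarith), Real.log_pow]
      have e5 : Real.log 2 ≤ 1 := by
        have := Real.log_two_lt_d9
        linarith
      have e6 : 0 ≤ Real.log 2 := Real.log_nonneg (by norm_num)
      have hk0 : (0 : ℝ) ≤ k := Nat.cast_nonneg k
      have e7 : |(t - B) * (k * Real.log 2) * d| ≤ k * d * t := by
        have h00 : 0 ≤ t - B := by linarith
        rw [abs_of_nonneg (by positivity)]
        calc (t - B) * (k * Real.log 2) * d ≤ t * (k * 1) * d := by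
              gcongr
              linarith
          _ = _ := by ring
      have e8 : Nr M A t - (t - A) * Real.log A * d =
          (Nr M A B - (B - A) * Real.log A * d) +
          ((Nr M B t - (t - B) * Real.log B * d) + (t - B) * (k * Real.log 2) * d) := by
        rw [e1, e4]
        ring
      rw [e8]
      have hBt : C * B ≤ C * t := by gcongr
      have hBt2 : C0 * B ≤ C0 * t := by gcongr
      refine (abs_add_le _ _).trans ?_
      have := abs_add_le (Nr M B t - (t - B) * Real.log B * d) ((t - B) * (k * Real.log 2) * d)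
      linarith

/-- dyadic blocks -/
theorem dya (hR : Rm M d) : ∃ C : ℝ, 0 < C ∧ ∀ T : ℝ, 10 ≤ T → Nr M T (2 * T) ≤ C * T * Real.log T := by
  obtain ⟨C, hC, h⟩ := hR.short
  have hd := hR.dpos
  refine ⟨C + d, by positivity, fun T hT => ?_⟩
  have h1 := (abs_le.1 (h T hT T (by linarith) le_rfl)).2
  have e : T + T = 2 * T := by ring
  rw [e] at h1
  have hl : 1 ≤ Real.log T := H965SI.one_le_log hT
  have h3 : C * T ≤ C * T * Real.log T := le_mul_of_one_le_right (by positivity) hl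
  linarith

/-- the tail, dyadic form -/
theorem tail_aux (hR : Rm M d) : ∃ C : ℝ, 0 < C ∧ ∀ T : ℝ, 10 ≤ T → ∀ (k : ℕ) (S : Finset ℂ),
    (∀ z ∈ S, T < z.im ∧ z.im ≤ 2 ^ k * T) →
    ∑ z ∈ S, M z / z.im ^ 2 ≤ C * Real.log T / T * (4 - (k + 3) / 2 ^ k) := by
  classical
  obtain ⟨C, hC, h⟩ := dya hR
  refine ⟨2 * C, by positivity, fun T hT k => ?_⟩
  have hT0 : 0 < T := by linarith
  have hl : 1 ≤ Real.log T := H965SI.one_le_log hT
  induction k with
  | zero =>
    intro S hS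
    have h1 : ∑ z ∈ S, M z / z.im ^ 2 = 0 := by
      refine Finset.sum_eq_zero fun z hz => ?_
      have := hS z hz
      rw [pow_zero, one_mul] at this
      linarith [this.1, this.2]
    rw [h1]
    have : 0 ≤ 2 * C * Real.log T / T := by positivity
    have e : (4 - (((0 : ℕ) : ℝ) + 3) / 2 ^ 0) = 1 := by norm_num
    rw [e]
    linarith
  | succ k ih =>
    intro S hS
    rw [← Finset.sum_filter_add_sum_filter_not S (fun z => z.im ≤ 2 ^ k * T)]
    have h1 := ih (S.filter (fun z => z.im ≤ 2 ^ k * T)) (fun z hz => by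
      rw [Finset.mem_filter] at hz
      exact ⟨(hS z hz.1).1, hz.2⟩)
    set B : ℝ := 2 ^ k * T with hB
    have hk1 : (1 : ℝ) ≤ 2 ^ k := one_le_pow₀ (by norm_num)
    have hTB : T ≤ B := by rw [hB]; nlinarith
    have hB0 : 0 < B := by linarith
    have h2 : ∑ z ∈ S.filter (fun z => ¬ z.im ≤ B), M z / z.im ^ 2 ≤ ∑ z ∈ S.filter (fun z => ¬ z.im ≤ B), M z / B ^ 2 := by
      refine Finset.sum_le_sum fun z hz => ?_
      rw [Finset.mem_filter, not_le] at hz
      apply div_le_div_of_nonneg_left (hR.zs.nn z) (by positivity)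
      exact pow_le_pow_left₀ hB0.le hz.2.le 2
    have h3 := sub_Nr hR.zs (T1 := B) (T2 := 2 * B) (S.filter (fun z => ¬ z.im ≤ B)) (fun z hz => by
      rw [Finset.mem_filter, not_le] at hz
      refine ⟨hz.2, ?_⟩
      have := (hS z hz.1).2
      rw [pow_succ] at this
      linarith)
    rw [← Finset.sum_div] at h2
    have h4 := h B (by linarith)
    have h5 := dya_log hT k
    rw [← hB] at h5
    have h6 : (∑ z ∈ S.filter (fun z => ¬ z.im ≤ B), M z) / B ^ 2 ≤ C * Real.log T / T * ((k + 1) / 2 ^ k) := by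
      rw [div_le_iff₀ (by positivity)]
      have e : C * Real.log T / T * ((k + 1) / 2 ^ k) * B ^ 2 = C * B * ((k + 1) * Real.log T) := by
        rw [hB]
        field_simp
      rw [e]
      refine (h3.trans h4).trans ?_
      gcongr
    have e : 2 * C * Real.log T / T * (4 - (((k + 1 : ℕ) : ℝ) + 3) / 2 ^ (k + 1)) =
        2 * C * Real.log T / T * (4 - (k + 3) / 2 ^ k) + C * Real.log T / T * ((k + 2) / 2 ^ k) := by
      push_cast
      rw [pow_succ]
      field_simp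
      ring
    rw [e]
    have h7 : C * Real.log T / T * ((k + 1) / 2 ^ k) ≤ C * Real.log T / T * ((k + 2) / 2 ^ k) := by
      gcongr
      norm_num
    linarith

/-- the tail -/
theorem tail (hR : Rm M d) : ∃ C : ℝ, 0 < C ∧ ∀ T : ℝ, 10 ≤ T → ∀ S : Finset ℂ,
    (∀ z ∈ S, T < z.im) → ∑ z ∈ S, M z / z.im ^ 2 ≤ C * Real.log T / T := by
  obtain ⟨C, hC, h⟩ := tail_aux hR
  refine ⟨4 * C, by positivity, fun T hT S hS => ?_⟩
  obtain ⟨k, hk⟩ := exists_dya (show 0 < T by linarith) S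
  refine (h T hT k S fun z hz => ⟨hS z hz, hk z hz⟩).trans ?_
  have h1 : 0 ≤ C * Real.log T / T := by
    have := Real.log_nonneg (show 1 ≤ T by linarith)
    positivity
  have h2 : (4 - ((k : ℝ) + 3) / 2 ^ k) ≤ 4 := by
    have : 0 ≤ ((k : ℝ) + 3) / 2 ^ k := by positivity
    linarith
  calc C * Real.log T / T * (4 - (k + 3) / 2 ^ k) ≤ C * Real.log T / T * 4 := by gcongr
    _ = _ := by ring

/-- all the zeros up to `Y` -/
theorem tot (hR : Rm M d) : ∃ C : ℝ, 0 < C ∧ ∀ Y : ℝ, 10 ≤ Y → ∀ S : Finset ℂ,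
    (∀ z ∈ S, 0 < z.im ∧ z.im ≤ Y) → ∑ z ∈ S, M z ≤ C * Y * Real.log Y := by
  classical
  obtain ⟨C1, hC1, h1⟩ := hR.zs.cnt 2 (by norm_num)
  obtain ⟨C2, hC2, h2⟩ := dya hR
  obtain ⟨D, hD⟩ : ∃ D : ℝ, D = C1 * 21 ^ (2 : ℝ) := ⟨_, rfl⟩
  have hD0 : 0 ≤ D := by rw [hD]; positivity
  refine ⟨D + 2 * C2, by positivity, ?_⟩
  -- by dyadic induction
  have key : ∀ (k : ℕ) (Y : ℝ), 10 ≤ Y → Y ≤ 2 ^ k * 20 → ∀ S : Finset ℂ,
      (∀ z ∈ S, 0 < z.im ∧ z.im ≤ Y) → ∑ z ∈ S, M z ≤ (D + 2 * C2) * Y * Real.log Y := by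
    intro k
    induction k with
    | zero =>
      intro Y hY hY2 S hS
      rw [pow_zero, one_mul] at hY2
      have h3 := h1 S
      have h4 : (∑ z ∈ S, M z) / 21 ^ (2 : ℝ) ≤ ∑ z ∈ S, M z / (1 + |z.im|) ^ (2 : ℝ) := by
        rw [Finset.sum_div]
        refine Finset.sum_le_sum fun z hz => ?_
        have := hS z hz
        apply div_le_div_of_nonneg_left (hR.zs.nn z) (by positivity)
        apply Real.rpow_le_rpow (by positivity) _ (by norm_num)
        rw [abs_of_pos this.1]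
        linarith
      have h5 := h4.trans h3
      rw [div_le_iff₀ (by positivity), ← hD] at h5
      have hl : 1 ≤ Real.log Y := H965SI.one_le_log hY
      have h6 : D ≤ (D + 2 * C2) * Y := by nlinarith
      have h7 : (D + 2 * C2) * Y ≤ (D + 2 * C2) * Y * Real.log Y :=
        le_mul_of_one_le_right (by positivity) hl
      linarith
    | succ k ih =>
      intro Y hY hY2 S hS
      rcases le_total Y (2 ^ k * 20) with h3 | h3
      · exact ih Y hY h3 S hS
      have hk1 : (1 : ℝ) ≤ 2 ^ k := one_le_pow₀ (by norm_num)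
      have h4 := ih (Y / 2) (by linarith) (by rw [pow_succ] at hY2; linarith) (S.filter (fun z => z.im ≤ Y / 2))
        (fun z hz => by
          rw [Finset.mem_filter] at hz
          exact ⟨(hS z hz.1).1, hz.2⟩)
      have h5 := sub_Nr hR.zs (T1 := Y / 2) (T2 := 2 * (Y / 2)) (S.filter (fun z => ¬ z.im ≤ Y / 2)) (fun z hz => by
        rw [Finset.mem_filter, not_le] at hz
        refine ⟨hz.2, ?_⟩
        have := (hS z hz.1).2
        linarith)
      have h6 := h2 (Y / 2) (by linarith)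
      rw [← Finset.sum_filter_add_sum_filter_not S (fun z => z.im ≤ Y / 2)]
      have h7 : Real.log (Y / 2) ≤ Real.log Y := Real.log_le_log (by linarith) (by linarith)
      have h8 : (D + 2 * C2) * (Y / 2) * Real.log (Y / 2) ≤
          (D + 2 * C2) * (Y / 2) * Real.log Y := by gcongr
      have h9 : C2 * (Y / 2) * Real.log (Y / 2) ≤ C2 * (Y / 2) * Real.log Y := by gcongr
      have hl0 := Real.log_nonneg (show 1 ≤ Y by linarith)
      have h10 : 0 ≤ D * (Y / 2) * Real.log Y := by positivity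
      have h11 : 0 ≤ C2 * (Y / 2) * Real.log Y := by positivity
      have e : (D + 2 * C2) * Y * Real.log Y =
        (D + 2 * C2) * (Y / 2) * Real.log Y + (C2 * (Y / 2) * Real.log Y + (C2 * (Y / 2) * Real.log Y + D * (Y / 2) * Real.log Y)) := by ring
      linarith
  intro Y hY S hS
  obtain ⟨k, hk⟩ := pow_unbounded_of_one_lt (Y / 20) (show (1 : ℝ) < 2 by norm_num)
  rw [div_lt_iff₀ (by norm_num)] at hk
  exact key k Y hY hk.le S hS

end

end Pool.Agent.U742.LA
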