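import Pool.Agent.U742.LA.Ab

/-!
# The sum of the kernel over the zeros, abstract setting
-/

set_option autoImplicit false

open Complex Filter Topology Finset MeasureTheory

namespace Pool.Agent.U742.LA

open Pool.Agent.N831.LI (Zs Dn)
open Pool.Agent.U156.LZ (fk fk_nonneg fk_le_two fk_le' fk_even fk_abs fk_cont fk_deriv gk gk_cont gk_abs abel mass ind_pos
  ind_neg)

noncomputable section

variable {M : ℂ → ℝ} {d : ℝ}

/-- sums over the upper half plane -/
theorem kup (hR : Rm M d) : ∃ C0 : ℝ, 0 < C0 ∧ ∀ δ : ℝ, 0 < δ → δ ≤ 1 → ∃ C3 : ℝ, 0 < C3 ∧ ∀ b : ℝ, 0 < b → ∀ n : ℕ, ∀ X : ℝ,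
    X = n * b → 10 ≤ δ * X → 1 / δ ≤ X →
    (∀ S : Finset ℂ, (∀ z ∈ S, 0 < z.im) →
      ∑ z ∈ S, M z * fk b n z.im ≤ (Real.pi * d + C0 * δ) * (X * Real.log X) + C3 * X) ∧
    (∃ S : Finset ℂ, (∀ z ∈ S, 0 < z.im) ∧
      (Real.pi * d - C0 * δ) * (X * Real.log X) - C3 * X ≤ ∑ z ∈ S, M z * fk b n z.im) := by
  classical
  obtain ⟨C1, hC1, h1⟩ := tot hR
  obtain ⟨C2, hC2, h2⟩ := tail hR
  have hd := hR.dpos
  have hpi := Real.pi_gt_three
  refine ⟨2 * C1 + 4 * C2 + 4 * d, by positivity, fun δ hδ hδ1 => ?_⟩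
  obtain ⟨k, hk⟩ := pow_unbounded_of_one_lt (1 / δ ^ 2) (show (1 : ℝ) < 2 by norm_num)
  obtain ⟨C, hC, h3⟩ := chain hR k
  refine ⟨2 * C / δ + 2 * C / δ ^ 4 + |Real.log δ| * (Real.pi * d), by positivity, fun b hb n X hX hX1 hX2 => ?_⟩
  have hX0 : 0 < X := by
    by_contra h
    push Not at h
    nlinarith
  set A : ℝ := δ * X with hA
  set B : ℝ := X / δ with hB
  have hA0 : 0 < A := by linarith
  have hAX : A ≤ X := by rw [hA]; nlinarith
  have hXB : X ≤ B := by rw [hB, le_div_iff₀ hδ]; nlinarith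
  have hAB : A ≤ B := by linarith
  have hB0 : 0 < B := by linarith
  have hB10 : 10 ≤ B := by linarith
  have hBk : B ≤ 2 ^ k * A := by
    have e : B = 1 / δ ^ 2 * A := by rw [hA, hB]; field_simp
    rw [e]
    gcongr
  have hlX : 0 < Real.log X := Real.log_pos (by linarith)
  have hlA : Real.log A = Real.log δ + Real.log X := by rw [hA, Real.log_mul hδ.ne' hX0.ne']
  have hlA0 : 0 < Real.log A := Real.log_pos (by linarith)
  have hlAX : Real.log A ≤ Real.log X := Real.log_le_log hA0 hAX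
  have hlB : Real.log B ≤ 2 * Real.log X := by
    rw [hB, Real.log_div hX0.ne' hδ.ne']
    have := Real.log_le_log (by positivity) hX2
    rw [one_div, Real.log_inv] at this
    linarith
  obtain ⟨L, hL⟩ : ∃ L : ℝ, L = Real.log A * d := ⟨_, rfl⟩
  have hL0 : 0 < L := by rw [hL]; positivity
  have hLX : L ≤ Real.log X * d := by
    rw [hL]
    gcongr
  have hLpi : L * (Real.pi * X) = Real.pi * d * (X * Real.log A) := by rw [hL]; ring
  obtain ⟨S1, hS1, hS1N⟩ := Nr_eq hR.zs A B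
  have hcount : ∀ t, A ≤ t → t ≤ B → |∑ z ∈ S1.filter (fun z => z.im ≤ t), M z - (t - A) * L| ≤ C * B := by
    intro t ht1 ht2
    obtain ⟨P, hP1, hP2⟩ := Nr_eq hR.zs A t
    have e : S1.filter (fun z => z.im ≤ t) = P := by
      ext z
      rw [Finset.mem_filter, hS1, hP1]
      constructor
      · rintro ⟨⟨a1, a2, a3⟩, a4⟩
        exact ⟨a1, a2, a4⟩
      · rintro ⟨a1, a2, a3⟩
        exact ⟨⟨a1, a2, a3.trans ht2⟩, a3⟩
    rw [e, ← hP2]
    have h4 := h3 A hX1 t ht1 (ht2.trans hBk)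
    have e2 : (t - A) * Real.log A * d = (t - A) * L := by rw [hL]; ring
    rw [e2] at h4
    refine h4.trans ?_
    gcongr
  have hD : ∀ t, A ≤ t → t ≤ B → |gk b n t| ≤ 2 * X / A ^ 2 := by
    intro t ht1 _
    refine (gk_abs hb n t).trans ?_
    rw [← hX]
    apply div_le_div_of_nonneg_left (by positivity) (by positivity)
    nlinarith
  have hmid := abel (fk_deriv hb n) (gk_cont hb n) hAB S1 (fun z hz => ((hS1 z).1 hz).2) M hcount hD
    (F := 2) (by rw [abs_of_nonneg (fk_nonneg hb n B)]; exact fk_le_two hb n B) (by positivity)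
  have hE : C * B * 2 + 2 * X / A ^ 2 * (C * B) * (B - A) ≤ (2 * C / δ + 2 * C / δ ^ 4) * X := by
    have e1 : C * B * 2 = 2 * C / δ * X := by rw [hB]; ring
    have e2 : 2 * X / A ^ 2 * (C * B) * (B - A) ≤ 2 * X / A ^ 2 * (C * B) * B := by
      gcongr
      linarith
    have e3 : 2 * X / A ^ 2 * (C * B) * B = 2 * C / δ ^ 4 * X := by
      rw [hA, hB]
      field_simp
    rw [e3] at e2
    linarith
  have hmid2 := abs_le.1 (hmid.trans hE)
  obtain ⟨m1, m2⟩ := mass hb n hA0 hAB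
  rw [← hX] at m1 m2
  have e4 : 2 * X ^ 2 / B = 2 * (δ * X) := by rw [hB]; field_simp
  rw [e4] at m2
  have hpd : 0 < Real.pi * d := by positivity
  have u1 : L * ∫ t in A..B, fk b n t ≤ Real.pi * d * (X * Real.log X) := by
    calc L * ∫ t in A..B, fk b n t ≤ L * (Real.pi * X) := by gcongr
      _ = Real.pi * d * (X * Real.log A) := hLpi
      _ ≤ _ := by gcongr
  have u2 : Real.pi * d * (X * Real.log X) - |Real.log δ| * (Real.pi * d) * X - 4 * d * δ * (X * Real.log X) ≤
      L * ∫ t in A..B, fk b n t := by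
    have v1 : L * (Real.pi * X - 2 * A - 2 * (δ * X)) ≤ L * ∫ t in A..B, fk b n t := by gcongr
    have v2 : L * (Real.pi * X - 2 * A - 2 * (δ * X)) = Real.pi * d * (X * Real.log A) - 4 * δ * X * L := by
      rw [← hLpi, hA]; ring
    have v3 : 4 * δ * X * L ≤ 4 * δ * X * (Real.log X * d) := by gcongr
    have v4 := neg_abs_le (Real.log δ)
    rw [v2, hlA] at v1
    have v5 : -(|Real.log δ| * (Real.pi * d) * X) ≤ Real.pi * d * (X * Real.log δ) := by
      have : Real.pi * d * X * (-|Real.log δ|) ≤ Real.pi * d * X * Real.log δ := by gcongr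
      linarith
    linarith
  have hXl : 0 < X * Real.log X := by positivity
  constructor
  · intro S hS
    have w0 : ∑ z ∈ S, M z * fk b n z.im = ∑ z ∈ S.filter (fun z => M z ≠ 0), M z * fk b n z.im := by
      refine (Finset.sum_filter_of_ne fun z _ hz => ?_).symm
      intro h0
      rw [h0, zero_mul] at hz
      exact hz rfl
    set S' := S.filter (fun z => M z ≠ 0) with hS'
    rw [w0, ← Finset.sum_filter_add_sum_filter_not S' (fun z => z.im ≤ A),
      ← Finset.sum_filter_add_sum_filter_not (S'.filter (fun z => ¬ z.im ≤ A)) (fun z => z.im ≤ B)]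
    have w1 : ∑ z ∈ S'.filter (fun z => z.im ≤ A), M z * fk b n z.im ≤ 2 * C1 * δ * (X * Real.log X) := by
      calc ∑ z ∈ S'.filter (fun z => z.im ≤ A), M z * fk b n z.im ≤ ∑ z ∈ S'.filter (fun z => z.im ≤ A), M z * 2 :=
            Finset.sum_le_sum fun z _ => mul_le_mul_of_nonneg_left (fk_le_two hb n _) (hR.zs.nn z)
        _ = (∑ z ∈ S'.filter (fun z => z.im ≤ A), M z) * 2 := by rw [Finset.sum_mul]
        _ ≤ (C1 * A * Real.log A) * 2 := by
            gcongr
            refine h1 A hX1 _ fun z hz => ?_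
            rw [Finset.mem_filter, hS', Finset.mem_filter] at hz
            exact ⟨hS z hz.1.1, hz.2⟩
        _ ≤ (C1 * A * Real.log X) * 2 := by gcongr
        _ = _ := by rw [hA]; ring
    have w2 : ∑ z ∈ (S'.filter (fun z => ¬ z.im ≤ A)).filter (fun z => z.im ≤ B), M z * fk b n z.im ≤
        ∑ z ∈ S1, M z * fk b n z.im := by
      refine Finset.sum_le_sum_of_subset_of_nonneg (fun z hz => ?_) fun z _ _ => mul_nonneg (hR.zs.nn z) (fk_nonneg hb n _)
      rw [Finset.mem_filter, Finset.mem_filter, hS', Finset.mem_filter, not_le] at hz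
      exact (hS1 z).2 ⟨hz.1.1.2, hz.1.2, hz.2⟩
    have w3 : ∑ z ∈ (S'.filter (fun z => ¬ z.im ≤ A)).filter (fun z => ¬ z.im ≤ B), M z * fk b n z.im ≤
        4 * C2 * δ * (X * Real.log X) := by
      calc ∑ z ∈ (S'.filter (fun z => ¬ z.im ≤ A)).filter (fun z => ¬ z.im ≤ B), M z * fk b n z.im
          ≤ ∑ z ∈ (S'.filter (fun z => ¬ z.im ≤ A)).filter (fun z => ¬ z.im ≤ B), 2 * X ^ 2 * (M z / z.im ^ 2) := by
            refine Finset.sum_le_sum fun z hz => ?_
            rw [Finset.mem_filter, not_le] at hz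
            have h5 : 0 < z.im := hB0.trans hz.2
            have h6 := fk_le' hb n h5
            rw [← hX] at h6
            calc M z * fk b n z.im ≤ M z * (2 * X ^ 2 / z.im ^ 2) := mul_le_mul_of_nonneg_left h6 (hR.zs.nn z)
              _ = _ := by ring
        _ = 2 * X ^ 2 * ∑ z ∈ (S'.filter (fun z => ¬ z.im ≤ A)).filter (fun z => ¬ z.im ≤ B), M z / z.im ^ 2 := by
            rw [Finset.mul_sum]
        _ ≤ 2 * X ^ 2 * (C2 * Real.log B / B) := by
            gcongr
            refine h2 B hB10 _ fun z hz => ?_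
            rw [Finset.mem_filter, not_le] at hz
            exact hz.2
        _ = 2 * C2 * δ * X * Real.log B := by rw [hB]; field_simp
        _ ≤ 2 * C2 * δ * X * (2 * Real.log X) := by gcongr
        _ = _ := by ring
    have hld : 0 ≤ |Real.log δ| * (Real.pi * d) * X := by positivity
    have e5 : (Real.pi * d + (2 * C1 + 4 * C2 + 4 * d) * δ) * (X * Real.log X) +
        (2 * C / δ + 2 * C / δ ^ 4 + |Real.log δ| * (Real.pi * d)) * X =
        Real.pi * d * (X * Real.log X) + 2 * C1 * δ * (X * Real.log X) + 4 * C2 * δ * (X * Real.log X) +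
        4 * d * δ * (X * Real.log X) +
        (2 * C / δ + 2 * C / δ ^ 4) * X + |Real.log δ| * (Real.pi * d) * X := by ring
    rw [e5]
    have h9 : 0 ≤ 4 * d * δ * (X * Real.log X) := by positivity
    linarith [hmid2.2]
  · refine ⟨S1, fun z hz => hA0.trans ((hS1 z).1 hz).2.1, ?_⟩
    have e5 : (Real.pi * d - (2 * C1 + 4 * C2 + 4 * d) * δ) * (X * Real.log X) -
        (2 * C / δ + 2 * C / δ ^ 4 + |Real.log δ| * (Real.pi * d)) * X =
        Real.pi * d * (X * Real.log X) - 2 * C1 * δ * (X * Real.log X) - 4 * C2 * δ * (X * Real.log X) -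
        4 * d * δ * (X * Real.log X) -
        (2 * C / δ + 2 * C / δ ^ 4) * X - |Real.log δ| * (Real.pi * d) * X := by ring
    rw [e5]
    have h9 : 0 ≤ 2 * C1 * δ * (X * Real.log X) := by positivity
    have h10 : 0 ≤ 4 * C2 * δ * (X * Real.log X) := by positivity
    linarith [hmid2.1]

lemma fk_summ (hM : Zs M) {b : ℝ} (hb : 0 < b) (n : ℕ) : Summable (fun z => M z * fk b n z.im) := by
  have h : ∀ z : ℂ, |z.re| < 1 / 2 → |fk b n z.im| ≤ (8 + 8 * (n * b) ^ 2) / (1 + |z.im|) ^ 2 := by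
    intro z _
    rw [abs_of_nonneg (fk_nonneg hb n _), le_div_iff₀ (by positivity)]
    have hy := abs_nonneg z.im
    rcases le_total |z.im| 1 with h1 | h1
    · have h2 := fk_le_two hb n z.im
      have h3 : (1 + |z.im|) ^ 2 ≤ 4 := by nlinarith
      have h4 : fk b n z.im * (1 + |z.im|) ^ 2 ≤ 2 * 4 := by
        apply mul_le_mul h2 h3 (by positivity) (by norm_num)
      have h5 : 0 ≤ 8 * (n * b) ^ 2 := by positivity
      linarith
    · have h2 := fk_le' hb n (show 0 < |z.im| by linarith)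
      rw [fk_abs] at h2
      rw [le_div_iff₀ (by positivity)] at h2
      have h3 : (1 + |z.im|) ^ 2 ≤ 4 * |z.im| ^ 2 := by nlinarith
      have h4 : fk b n z.im * (1 + |z.im|) ^ 2 ≤ fk b n z.im * (4 * |z.im| ^ 2) := by
        gcongr
        exact fk_nonneg hb n _
      linarith
  exact Pool.Agent.N831.LI.summ_of hM (by positivity) h

/-- the total mass of the real zeros -/
lemma real_mass (hM : Zs M) : ∃ C : ℝ, 0 ≤ C ∧ ∀ S : Finset ℂ, (∀ z ∈ S, z.im = 0) → ∑ z ∈ S, M z ≤ C := by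
  obtain ⟨C, hC, h⟩ := hM.cnt 2 (by norm_num)
  refine ⟨C, hC, fun S hS => le_trans (le_of_eq (Finset.sum_congr rfl fun z hz => ?_)) (h S)⟩
  rw [hS z hz]
  simp

/-- the sum over all zeros is twice the sum over the upper half plane, and the real zeros -/
lemma tsum_up (hM : Zs M) {g : ℝ → ℝ} (hg : ∀ y, g (-y) = g y) (hg0 : ∀ y, 0 ≤ g y) (hg2 : ∀ y, g y ≤ 2)
    (hs : Summable (fun z => M z * g z.im)) {C : ℝ}
    (hC : ∀ S : Finset ℂ, (∀ z ∈ S, z.im = 0) → ∑ z ∈ S, M z ≤ C) :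
    2 * ∑' z : ℂ, Set.indicator {z : ℂ | 0 < z.im} (fun z => M z * g z.im) z ≤ ∑' z : ℂ, M z * g z.im ∧
    ∑' z : ℂ, M z * g z.im ≤ 2 * ∑' z : ℂ, Set.indicator {z : ℂ | 0 < z.im} (fun z => M z * g z.im) z + 2 * C := by
  classical
  have h1 : ∀ z : ℂ, M z * g z.im = (Set.indicator {z : ℂ | 0 < z.im} (fun z => M z * g z.im) z +
      Set.indicator {z : ℂ | 0 < z.im} (fun z => M z * g z.im) (starRingEnd ℂ z)) +
      Set.indicator {z : ℂ | z.im = 0} (fun z => M z * g z.im) z := by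
    intro z
    rcases lt_trichotomy z.im 0 with h | h | h
    · rw [ind_neg (not_lt.2 h.le), ind_pos (by rw [Complex.conj_im]; linarith),
        Set.indicator_of_notMem (show z ∉ {z : ℂ | z.im = 0} from h.ne), hM.conj, Complex.conj_im, hg, zero_add, add_zero]
    · have h5 : ¬ 0 < (starRingEnd ℂ z).im := by rw [Complex.conj_im]; linarith
      rw [ind_neg (by linarith), ind_neg h5, Set.indicator_of_mem (show z ∈ {z : ℂ | z.im = 0} from h), zero_add, zero_add]
    · have h5 : ¬ 0 < (starRingEnd ℂ z).im := by rw [Complex.conj_im]; linarith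
      rw [ind_pos h, ind_neg h5, Set.indicator_of_notMem (show z ∉ {z : ℂ | z.im = 0} from h.ne'), add_zero, add_zero]
  have h2 : Summable (Set.indicator {z : ℂ | 0 < z.im} (fun z => M z * g z.im)) := hs.indicator _
  have h2' : Summable (Set.indicator {z : ℂ | z.im = 0} (fun z => M z * g z.im)) := hs.indicator _
  have h3 : Summable (fun z : ℂ => Set.indicator {z : ℂ | 0 < z.im} (fun z => M z * g z.im) (starRingEnd ℂ z)) :=
    (Equiv.mk (fun z : ℂ => starRingEnd ℂ z) (fun z : ℂ => starRingEnd ℂ z) (fun z => Complex.conj_conj z)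
      (fun z => Complex.conj_conj z)).summable_iff.2 h2
  have h4 : ∑' z : ℂ, Set.indicator {z : ℂ | 0 < z.im} (fun z => M z * g z.im) (starRingEnd ℂ z) =
      ∑' z : ℂ, Set.indicator {z : ℂ | 0 < z.im} (fun z => M z * g z.im) z :=
    (Equiv.mk (fun z : ℂ => starRingEnd ℂ z) (fun z : ℂ => starRingEnd ℂ z) (fun z => Complex.conj_conj z)
      (fun z => Complex.conj_conj z)).tsum_eq (Set.indicator {z : ℂ | 0 < z.im} (fun z => M z * g z.im))
  have h5 : ∑' z : ℂ, M z * g z.im = 2 * ∑' z : ℂ, Set.indicator {z : ℂ | 0 < z.im} (fun z => M z * g z.im) z +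
      ∑' z : ℂ, Set.indicator {z : ℂ | z.im = 0} (fun z => M z * g z.im) z := by
    rw [tsum_congr h1, (h2.add h3).tsum_add h2', h2.tsum_add h3, h4]
    ring
  have h6 : 0 ≤ ∑' z : ℂ, Set.indicator {z : ℂ | z.im = 0} (fun z => M z * g z.im) z :=
    tsum_nonneg fun z => Set.indicator_nonneg (fun z _ => mul_nonneg (hM.nn z) (hg0 _)) z
  have h7 : ∑' z : ℂ, Set.indicator {z : ℂ | z.im = 0} (fun z => M z * g z.im) z ≤ 2 * C := by
    refine h2'.tsum_le_of_sum_le fun S => ?_
    rw [← Finset.sum_filter_add_sum_filter_not S (fun z => z.im = 0)]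
    have a1 : ∑ z ∈ S.filter (fun z => ¬ z.im = 0), Set.indicator {z : ℂ | z.im = 0} (fun z => M z * g z.im) z = 0 :=
      Finset.sum_eq_zero fun z hz => Set.indicator_of_notMem (show z ∉ {z : ℂ | z.im = 0} from (Finset.mem_filter.1 hz).2) _
    rw [a1, add_zero]
    calc ∑ z ∈ S.filter (fun z => z.im = 0), Set.indicator {z : ℂ | z.im = 0} (fun z => M z * g z.im) z
        ≤ ∑ z ∈ S.filter (fun z => z.im = 0), M z * 2 := by
          refine Finset.sum_le_sum fun z hz => ?_
          rw [Set.indicator_of_mem (show z ∈ {z : ℂ | z.im = 0} from (Finset.mem_filter.1 hz).2)]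
          exact mul_le_mul_of_nonneg_left (hg2 _) (hM.nn z)
      _ = (∑ z ∈ S.filter (fun z => z.im = 0), M z) * 2 := by rw [Finset.sum_mul]
      _ ≤ C * 2 := by
          gcongr
          exact hC _ fun z hz => (Finset.mem_filter.1 hz).2
      _ = _ := by ring
  rw [h5]
  constructor <;> linarith

/-- **the asymptotic formula for the sum of the kernel** -/
theorem ksum (hR : Rm M d) {ε : ℝ} (hε : 0 < ε) : ∃ X1 : ℝ, 10 ≤ X1 ∧ ∀ b : ℝ, 0 < b → ∀ n : ℕ, X1 ≤ n * b →
    |∑' z : ℂ, M z * fk b n z.im - 2 * Real.pi * d * (n * b * Real.log (n * b))| ≤ ε * (n * b * Real.log (n * b)) := by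
  classical
  obtain ⟨C0, hC0, h⟩ := kup hR
  obtain ⟨Cr, hCr, hr⟩ := real_mass hR.zs
  obtain ⟨δ, hδ⟩ : ∃ δ : ℝ, δ = min 1 (ε / (8 * C0)) := ⟨_, rfl⟩
  have hδ0 : 0 < δ := by rw [hδ]; exact lt_min one_pos (by positivity)
  have hδ1 : δ ≤ 1 := by rw [hδ]; exact min_le_left _ _
  have hδ2 : C0 * δ ≤ ε / 8 := by
    have : δ ≤ ε / (8 * C0) := by rw [hδ]; exact min_le_right _ _
    rw [le_div_iff₀ (by positivity)] at this
    linarith
  obtain ⟨C3, hC3, h1⟩ := h δ hδ0 hδ1
  refine ⟨max (max 10 (10 / δ)) (Real.exp (8 * (C3 + Cr) / ε)), (le_max_left _ _).trans (le_max_left _ _), fun b hb n hX => ?_⟩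
  obtain ⟨X, hX'⟩ : ∃ X : ℝ, X = n * b := ⟨_, rfl⟩
  rw [← hX'] at hX ⊢
  have hX10 : 10 ≤ X := (le_max_left _ _).trans ((le_max_left _ _).trans hX)
  have hXδ : 10 / δ ≤ X := (le_max_right _ _).trans ((le_max_left _ _).trans hX)
  have hXe : Real.exp (8 * (C3 + Cr) / ε) ≤ X := (le_max_right _ _).trans hX
  have hX0 : 0 < X := by linarith
  have hl : 8 * (C3 + Cr) / ε ≤ Real.log X := (Real.le_log_iff_exp_le hX0).2 hXe
  have hl2 : (C3 + Cr) * X ≤ ε / 8 * (X * Real.log X) := by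
    rw [div_le_iff₀ hε] at hl
    nlinarith
  have hl3 : Cr ≤ Cr * X := by nlinarith
  have hl0 : 0 < X * Real.log X := by
    have : 0 < Real.log X := Real.log_pos (by linarith)
    positivity
  obtain ⟨u1, S, hS, u2⟩ := h1 b hb n X hX' (by rw [div_le_iff₀ hδ0] at hXδ; linarith) (by
    refine le_trans ?_ hXδ
    gcongr
    norm_num)
  have hs := fk_summ hR.zs hb n
  have hi := hs.indicator {z : ℂ | 0 < z.im}
  have hnn : ∀ z, 0 ≤ Set.indicator {z : ℂ | 0 < z.im} (fun z => M z * fk b n z.im) z := fun z =>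
    Set.indicator_nonneg (fun z _ => mul_nonneg (hR.zs.nn z) (fk_nonneg hb n _)) z
  obtain ⟨t1, t2⟩ := tsum_up hR.zs (g := fk b n) (fk_even n) (fk_nonneg hb n) (fk_le_two hb n) hs hr
  have hup : ∑' z : ℂ, Set.indicator {z : ℂ | 0 < z.im} (fun z => M z * fk b n z.im) z ≤
      (Real.pi * d + C0 * δ) * (X * Real.log X) + C3 * X := by
    refine hi.tsum_le_of_sum_le fun T => ?_
    rw [← Finset.sum_filter_add_sum_filter_not T (fun z => 0 < z.im)]
    have a1 : ∑ z ∈ T.filter (fun z => ¬ 0 < z.im), Set.indicator {z : ℂ | 0 < z.im} (fun z => M z * fk b n z.im) z = 0 :=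
      Finset.sum_eq_zero fun z hz => ind_neg (Finset.mem_filter.1 hz).2
    have a2 : ∑ z ∈ T.filter (fun z => 0 < z.im), Set.indicator {z : ℂ | 0 < z.im} (fun z => M z * fk b n z.im) z =
        ∑ z ∈ T.filter (fun z => 0 < z.im), M z * fk b n z.im :=
      Finset.sum_congr rfl fun z hz => ind_pos (Finset.mem_filter.1 hz).2
    rw [a1, a2, add_zero]
    exact u1 _ fun z hz => (Finset.mem_filter.1 hz).2
  have hlo : (Real.pi * d - C0 * δ) * (X * Real.log X) - C3 * X ≤
      ∑' z : ℂ, Set.indicator {z : ℂ | 0 < z.im} (fun z => M z * fk b n z.im) z := by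
    refine u2.trans ?_
    have a2 : ∑ z ∈ S, M z * fk b n z.im = ∑ z ∈ S, Set.indicator {z : ℂ | 0 < z.im} (fun z => M z * fk b n z.im) z :=
      Finset.sum_congr rfl fun z hz => (ind_pos (F := fun z => M z * fk b n z.im) (hS z hz)).symm
    rw [a2]
    exact hi.sum_le_tsum S fun z _ => hnn z
  have h9 : C0 * δ * (X * Real.log X) ≤ ε / 8 * (X * Real.log X) := by gcongr
  rw [abs_le]
  constructor <;> nlinarith

end

end Pool.Agent.U742.LA
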