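import Pool.Agent.U742.LA.As
import Pool.Agent.N831.LI.Conv

/-!
# The law, abstract setting
-/

set_option autoImplicit false

open Complex Filter Topology Finset MeasureTheory

namespace Pool.Agent.U742.LA

open Pool.Agent.N831.LI (W Zs Dn hh gg W_ne qq neg_small li li_symm cnt2)
open Pool.Agent.U156.LZ (fk fk_nonneg hh_fk wl)

noncomputable section

variable {M : ℂ → ℝ} {d : ℝ}

/-- comparison of the sums -/
theorem li_fk (hM : Zs M) {κ : ℝ} (hκ : 0 < κ) (hD : Dn M κ) {ε : ℝ} (hε : 0 < ε) :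
    ∀ᶠ b : ℝ in atTop, ∀ n : ℕ, 1 ≤ n → (n : ℝ) ≤ κ * b * Real.log b →
      |li M b n - ∑' z : ℂ, M z * fk b n z.im| ≤ ε * n * b * Real.log b := by
  obtain ⟨C2, hC2, hc2⟩ := cnt2 hM
  have e1 := neg_small hM hκ hD (show 0 < ε / 2 by positivity)
  filter_upwards [e1, eventually_ge_atTop (max 3 (16 * C2 / ε))] with b h1 hb n hn hnk
  have hb3 : 3 ≤ b := (le_max_left _ _).trans hb
  have hbC : 16 * C2 / ε ≤ b := (le_max_right _ _).trans hb
  rw [div_le_iff₀ hε] at hbC
  have hb1 : 1 ≤ b := by linarith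
  have hb0 : 0 < b := by linarith
  have hl : 1 ≤ Real.log b := by
    rw [Real.le_log_iff_exp_le hb0]
    have := Real.exp_one_lt_d9
    linarith
  have hs := (li_symm hM hb1 n).sub (fk_summ hM hb0 n).hasSum
  have key : ∀ S : Finset ℂ, |∑ z ∈ S, (M z * hh b n z - M z * fk b n z.im)| ≤ ε * n * b * Real.log b := by
    intro S
    have h2 := h1 n hn hnk S
    have h3 := hc2 S
    calc |∑ z ∈ S, (M z * hh b n z - M z * fk b n z.im)|
        ≤ ∑ z ∈ S, |M z * hh b n z - M z * fk b n z.im| := Finset.abs_sum_le_sum_abs _ _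
      _ ≤ ∑ z ∈ S, (qq M b n z + 8 * n * (M z / (1 + |z.im|) ^ 2)) := by
          refine Finset.sum_le_sum fun z _ => ?_
          rw [← mul_sub, abs_mul, abs_of_nonneg (hM.nn z)]
          by_cases h0 : M z = 0
          · unfold qq
            simp [h0]
          · have h4 := hh_fk hb1 (hM.strip z h0) n
            have h5 := mul_le_mul_of_nonneg_left h4 (hM.nn z)
            unfold qq
            refine h5.trans (le_of_eq ?_)
            ring
      _ = ∑ z ∈ S, qq M b n z + 8 * n * ∑ z ∈ S, M z / (1 + |z.im|) ^ 2 := by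
          rw [Finset.sum_add_distrib, Finset.mul_sum]
      _ ≤ ε / 2 * n * b * Real.log b + 8 * n * C2 := by gcongr
      _ ≤ _ := by
          have h6 : 8 * n * C2 ≤ ε / 2 * n * b * 1 := by
            have : (n : ℝ) * (16 * C2) ≤ n * (b * ε) := by gcongr
            linarith
          have h7 : ε / 2 * n * b * 1 ≤ ε / 2 * n * b * Real.log b := by gcongr
          linarith
  refine le_of_tendsto (hs.abs) (Eventually.of_forall key)

/-- **the law, in terms of `b`** -/
theorem law_b (hR : Rm M d) {κ : ℝ} (hκ : 0 < κ) (hD : Dn M κ) {ε : ℝ} (hε : 0 < ε) :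
    ∀ᶠ b : ℝ in atTop, ∀ n : ℕ, 1 ≤ n → (n : ℝ) ≤ κ * b * Real.log b →
      |li M b n - 2 * Real.pi * d * (n * b * Real.log (n * b))| ≤ ε * (n * b * Real.log (n * b)) := by
  obtain ⟨X1, hX1, h2⟩ := ksum hR (show 0 < ε / 2 by positivity)
  filter_upwards [li_fk hR.zs hκ hD (show 0 < ε / 2 by positivity), eventually_ge_atTop X1] with b h1 hb n hn hnk
  have hn1 : (1 : ℝ) ≤ n := by exact_mod_cast hn
  have hb0 : 0 < b := by linarith
  have hbn : b ≤ n * b := le_mul_of_one_le_left hb0.le hn1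
  have h3 := h1 n hn hnk
  have h4 := h2 b hb0 n (hb.trans hbn)
  have h5 : Real.log b ≤ Real.log (n * b) := Real.log_le_log hb0 hbn
  have h6 : ε / 2 * n * b * Real.log b ≤ ε / 2 * (n * b * Real.log (n * b)) := by
    have : ε / 2 * n * b * Real.log b ≤ ε / 2 * n * b * Real.log (n * b) := by gcongr
    linarith
  have h7 := abs_sub_le (li M b n) (∑' z : ℂ, M z * fk b n z.im) (2 * Real.pi * d * (n * b * Real.log (n * b)))
  linarith

/-- the law for all `n`, if all the zeros are on the line -/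
theorem law_rh (hR : Rm M d) (h : ∀ z, M z ≠ 0 → z.re = 0) {ε : ℝ} (hε : 0 < ε) :
    ∀ᶠ b : ℝ in atTop, ∀ n : ℕ, 1 ≤ n →
      |li M b n - 2 * Real.pi * d * (n * b * Real.log (n * b))| ≤ ε * (n * b * Real.log (n * b)) := by
  obtain ⟨X1, hX1, h2⟩ := ksum hR hε
  filter_upwards [eventually_ge_atTop X1] with b hb n hn
  have hn1 : (1 : ℝ) ≤ n := by exact_mod_cast hn
  have hb0 : 0 < b := by linarith
  have hbn : b ≤ n * b := le_mul_of_one_le_left hb0.le hn1
  have e : li M b n = ∑' z : ℂ, M z * fk b n z.im := by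
    unfold li
    refine tsum_congr fun z => ?_
    by_cases h0 : M z = 0
    · rw [h0, zero_mul, zero_mul]
    · have h1 := h z h0
      have h3 : z = (z.im : ℂ) * I := by
        conv_lhs => rw [← Complex.re_add_im z, h1]
        simp
      unfold fk wl
      rw [← h3]
  rw [e]
  exact h2 b hb0 n (hb.trans hbn)

end

end Pool.Agent.U742.LA
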