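import Pool.Agent.N831.LP.F
import Pool.Agent.H370R2.Count
import Pool.Agent.U742.LA.Ab

/-!
# The Riemann-von Mangoldt formula for completed L-functions

`CG κ H X Z`: the completed function `X w = Λ(1/2 + w)`, `X w = H w * Z (1/2 + w)` for `0 < Im w`.
-/

set_option autoImplicit false

open Complex Filter Topology MeasureTheory Metric
open scoped ComplexConjugate

namespace Pool.Agent.U742.LA

open Pool.Agent.Y671.GL (CG)
open H370 (mult)
open H370.Loc (jensen_mult landau pigeon)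

noncomputable section

variable {κ : ℝ} {H X Z : ℂ → ℂ}

/-- sizes in a ball -/
lemma sizes (hC : CG κ H X Z) : ∃ K T0 : ℝ, 0 < K ∧ 30 ≤ T0 ∧ ∀ t : ℝ, T0 ≤ t → ∃ A : ℝ, 0 < A ∧
    (∀ u : ℂ, ‖u‖ ≤ 20 → ‖X (I * t + u)‖ ≤ A * Real.exp (K * Real.log t)) ∧
    A * Real.exp (-(K * Real.log t)) ≤ ‖X (I * t + 2)‖ := by
  obtain ⟨K1, T1, hK1, hT1, h1⟩ := hC.cf.gam 20 (by norm_num)
  obtain ⟨K2, T2, hK2, hT2, h2⟩ := hC.cf.gro 20 (by norm_num)
  obtain ⟨c, K3, hc, hK3, h3⟩ := hC.cf.rgt (1 / 2) (by norm_num)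
  have hκ := hC.cf.κ_pos
  have hlc := abs_nonneg (Real.log c)
  refine ⟨20 * κ + K1 + K2 + |Real.log c|, max 30 (max T1 T2), by positivity, le_max_left _ _, fun t ht => ?_⟩
  have g0 : 30 ≤ t := (le_max_left _ _).trans ht
  have g1 : T1 ≤ t := (le_max_left _ _).trans ((le_max_right _ _).trans ht)
  have g2 : T2 ≤ t := (le_max_right _ _).trans ((le_max_right _ _).trans ht)
  have ht0 : 0 < t := by linarith
  have hl : 1 ≤ Real.log t := H370.Loc.one_le_log (by linarith)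
  have hH0 : 0 < ‖H (I * t)‖ := by
    have := (h1 t 0 g1 (by simp)).2.1
    rw [add_zero] at this
    exact norm_pos_iff.2 this
  refine ⟨‖H (I * t)‖, hH0, fun u hu => ?_, ?_⟩
  · have hure := (abs_le.1 ((Complex.abs_re_le_norm u).trans hu)).2
    have huim := (abs_le.1 ((Complex.abs_im_le_norm u).trans hu)).1
    have him : 0 < (I * t + u).im := by
      have : (I * t + u).im = t + u.im := by simp
      rw [this]
      linarith
    rw [hC.cf.eq _ him, norm_mul]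
    obtain ⟨-, -, -, -, a1⟩ := h1 t u g1 hu
    have a2 := h2 t u g2 hu
    have e2 : t ^ K2 = Real.exp (K2 * Real.log t) := by
      rw [Real.rpow_def_of_pos ht0]
      congr 1
      ring
    rw [e2] at a2
    calc ‖H (I * t + u)‖ * ‖Z (1 / 2 + (I * t + u))‖
        ≤ (Real.exp (κ * Real.log t * u.re + K1) * ‖H (I * t)‖) * Real.exp (K2 * Real.log t) := by gcongr
      _ = ‖H (I * t)‖ * Real.exp (κ * Real.log t * u.re + K1 + K2 * Real.log t) := by
          rw [Real.exp_add (κ * Real.log t * u.re + K1)]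
          ring
      _ ≤ _ := by
          gcongr
          have b1 : κ * Real.log t * u.re ≤ κ * Real.log t * 20 := by gcongr
          have b2 : K1 ≤ K1 * Real.log t := le_mul_of_one_le_right hK1.le hl
          have b3 : 0 ≤ |Real.log c| * Real.log t := by positivity
          linarith
  · have him : 0 < (I * t + 2 : ℂ).im := by
      have : (I * t + 2 : ℂ).im = t := by simp
      rw [this]
      exact ht0
    rw [hC.cf.eq _ him, norm_mul]
    obtain ⟨-, -, -, a1, -⟩ := h1 t 2 g1 (by norm_num)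
    have a3 := (h3 (1 / 2 + (I * t + 2)) (by norm_num)).1
    have e2 : (2 : ℂ).re = 2 := by norm_num
    rw [e2] at a1
    calc ‖H (I * t)‖ * Real.exp (-((20 * κ + K1 + K2 + |Real.log c|) * Real.log t))
        ≤ ‖H (I * t)‖ * Real.exp (κ * Real.log t * 2 - K1 + Real.log c) := by
          gcongr
          have b1 : 0 ≤ κ * Real.log t := by positivity
          have b2 : K1 ≤ K1 * Real.log t := le_mul_of_one_le_right hK1.le hl
          have b3 : |Real.log c| ≤ |Real.log c| * Real.log t := le_mul_of_one_le_right hlc hl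
          have b4 := neg_abs_le (Real.log c)
          have b5 : 0 ≤ K2 * Real.log t := by positivity
          linarith
      _ = (Real.exp (κ * Real.log t * 2 - K1) * ‖H (I * t)‖) * c := by
          rw [Real.exp_add, Real.exp_log hc]
          ring
      _ ≤ _ := by gcongr

/-- the normalised function -/
lemma norm_data (hC : CG κ H X Z) : ∃ K T0 : ℝ, 0 < K ∧ 30 ≤ T0 ∧ ∀ t : ℝ, T0 ≤ t → ∃ (a : ℂ) (M : ℝ), a ≠ 0 ∧ 1 ≤ M ∧
    (∀ z ∈ closedBall (I * t + 2 : ℂ) 18, ‖a * X z‖ ≤ M) ∧ a * X (I * t + 2) ≠ 0 ∧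
    Real.log (M / ‖a * X (I * t + 2)‖) ≤ K * Real.log t := by
  obtain ⟨K, T0, hK, hT0, h⟩ := sizes hC
  refine ⟨2 * K, T0, by positivity, hT0, fun t ht => ?_⟩
  obtain ⟨A, hA, h1, h2⟩ := h t ht
  have ht0 : 0 < t := by linarith
  have hl : 0 ≤ Real.log t := Real.log_nonneg (by linarith)
  have hAc : (A : ℂ) ≠ 0 := by exact_mod_cast hA.ne'
  have hn : ∀ z, ‖((A : ℂ))⁻¹ * X z‖ = ‖X z‖ / A := by
    intro z
    rw [norm_mul, norm_inv, Complex.norm_real, Real.norm_eq_abs, abs_of_pos hA]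
    ring
  have hX0 : 0 < ‖X (I * t + 2)‖ := lt_of_lt_of_le (by positivity) h2
  refine ⟨(A : ℂ)⁻¹, Real.exp (K * Real.log t), inv_ne_zero hAc, ?_, fun z hz => ?_, ?_, ?_⟩
  · rw [← Real.exp_zero]
    exact Real.exp_le_exp.2 (by positivity)
  · rw [hn, div_le_iff₀ hA, mul_comm]
    have e : z = I * t + (z - I * t) := by ring
    rw [e]
    apply h1
    rw [mem_closedBall, dist_eq_norm] at hz
    have e2 : z - I * t = (z - (I * t + 2)) + 2 := by ring
    rw [e2]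
    refine (norm_add_le _ _).trans ?_
    have : ‖(2 : ℂ)‖ = 2 := by norm_num
    rw [this]
    linarith
  · exact mul_ne_zero (inv_ne_zero hAc) (norm_pos_iff.1 hX0)
  · rw [hn]
    have h3 : Real.exp (-(K * Real.log t)) ≤ ‖X (I * t + 2)‖ / A := by
      rw [le_div_iff₀ hA, mul_comm]
      exact h2
    have h4 : Real.exp (K * Real.log t) / (‖X (I * t + 2)‖ / A) ≤ Real.exp (2 * K * Real.log t) := by
      rw [div_le_iff₀ (by positivity)]
      calc Real.exp (K * Real.log t) = Real.exp (2 * K * Real.log t) * Real.exp (-(K * Real.log t)) := by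
            rw [← Real.exp_add]
            congr 1
            ring
        _ ≤ _ := by gcongr
    have h5 := Real.log_le_log (by positivity) h4
    rwa [Real.log_exp] at h5

lemma ord_const {a : ℂ} (ha : a ≠ 0) (hX : Differentiable ℂ X) (z : ℂ) :
    analyticOrderNatAt (fun w => a * X w) z = analyticOrderNatAt X z :=
  Pool.Agent.N831.LP.order_const_mul hX ha (fun _ => rfl) z

/-- few zeros in a window -/
lemma jens (hC : CG κ H X Z) : ∃ K T0 : ℝ, 0 < K ∧ 30 ≤ T0 ∧ ∀ t : ℝ, T0 ≤ t → ∀ S : Finset ℂ,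
    (∀ z ∈ S, |z.re| ≤ 1 / 2 ∧ |z.im - t| ≤ 8) → ∑ z ∈ S, (analyticOrderNatAt X z : ℝ) ≤ K * Real.log t := by
  obtain ⟨K, T0, hK, hT0, h⟩ := norm_data hC
  have hl2 : 0 < Real.log (18 / 9) := Real.log_pos (by norm_num)
  refine ⟨K / Real.log (18 / 9), T0, by positivity, hT0, fun t ht S hS => ?_⟩
  obtain ⟨a, M, ha, hM, h1, h2, h3⟩ := h t ht
  have hX := hC.cf.diff
  have hfd : Differentiable ℂ (fun w => a * X w) := hX.const_mul a
  have h4 := jensen_mult (f := fun w => a * X w) (c := I * t + 2) (r := 9) (R := 18) (by norm_num) (by norm_num) hM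
    (fun z _ => hfd.analyticAt z) h2 h1 S (fun z hz => by
      obtain ⟨a1, a2⟩ := hS z hz
      rw [mem_closedBall, dist_eq_norm]
      apply abs_le_of_sq_le_sq' _ (by norm_num) |>.2
      rw [← Complex.normSq_eq_norm_sq, Complex.normSq_apply]
      have e1 : (z - (I * t + 2)).re = z.re - 2 := by simp
      have e2 : (z - (I * t + 2)).im = z.im - t := by simp
      rw [e1, e2]
      rw [abs_le] at a1 a2
      nlinarith)
  have e : ∑ z ∈ S, (mult (fun w => a * X w) z : ℝ) = ∑ z ∈ S, (analyticOrderNatAt X z : ℝ) := by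
    refine Finset.sum_congr rfl fun z _ => ?_
    unfold mult
    rw [ord_const ha hX]
  rw [e] at h4
  refine h4.trans ?_
  rw [div_mul_eq_mul_div]
  exact div_le_div_of_nonneg_right h3 hl2.le

/-- zeros have positive order -/
lemma ord_pos (hC : CG κ H X Z) (hst : ∀ s, X s = 0 → |s.re| ≤ 1 / 2) {z : ℂ} : X z = 0 ↔ analyticOrderNatAt X z ≠ 0 := by
  have hX := hC.cf.diff
  have hne : X 1 ≠ 0 := fun h => by
    have := hst 1 h
    norm_num at this
  have h1 : analyticOrderAt X z ≠ ⊤ := Pool.Agent.R838.TW.top_ne hX hne z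
  rw [← not_iff_not, not_not]
  constructor
  · intro h
    unfold analyticOrderNatAt
    rw [(hX.analyticAt z).analyticOrderAt_eq_zero.2 h]
    rfl
  · intro h
    unfold analyticOrderNatAt at h
    rcases ENat.toNat_eq_zero.1 h with h4 | h4
    · exact (hX.analyticAt z).analyticOrderAt_eq_zero.1 h4
    · exact absurd h4 h1

/-- finitely many zeros in a window -/
lemma fin_win (hC : CG κ H X Z) (hst : ∀ s, X s = 0 → |s.re| ≤ 1 / 2) (T1 T2 : ℝ) :
    {z : ℂ | X z = 0 ∧ T1 ≤ z.im ∧ z.im ≤ T2}.Finite := by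
  have hX := hC.cf.diff
  by_contra hinf
  have hinf : Set.Infinite {z : ℂ | X z = 0 ∧ T1 ≤ z.im ∧ z.im ≤ T2} := hinf
  have hcomp : IsCompact (Set.Icc (-(1 / 2) : ℝ) (1 / 2) ×ℂ Set.Icc T1 T2) := isCompact_Icc.reProdIm isCompact_Icc
  have hsub : {z : ℂ | X z = 0 ∧ T1 ≤ z.im ∧ z.im ≤ T2} ⊆ Set.Icc (-(1 / 2) : ℝ) (1 / 2) ×ℂ Set.Icc T1 T2 := by
    rintro s ⟨h1, h2, h3⟩
    have h4 := abs_le.1 (hst s h1)
    exact ⟨⟨by linarith [h4.1], h4.2⟩, ⟨h2, h3⟩⟩
  obtain ⟨x, hx, hacc⟩ := hinf.exists_accPt_of_subset_isCompact hcomp hsub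
  have hfreq : ∃ᶠ z in 𝓝[≠] x, X z = 0 := by
    rw [accPt_iff_frequently_nhdsNE] at hacc
    exact hacc.mono fun z hz => hz.1
  have hz := AnalyticOnNhd.eqOn_zero_of_preconnected_of_frequently_eq_zero
    (f := X) (U := Set.univ) (fun s _ => hX.analyticAt s) isPreconnected_univ (Set.mem_univ x) hfreq
  have h2 : X 1 = 0 := hz (Set.mem_univ 1)
  have := hst 1 h2
  norm_num at this

/-- a height without zeros nearby -/
def GH (X : ℂ → ℂ) (C V : ℝ) : Prop := ∀ x ∈ Set.Icc (-(3 / 2) : ℝ) (3 / 2),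
  X (⟨x, V⟩ : ℂ) ≠ 0 ∧ ‖deriv X (⟨x, V⟩ : ℂ) / X (⟨x, V⟩ : ℂ)‖ ≤ C * V

lemma good (hC : CG κ H X Z) (hst : ∀ s, X s = 0 → |s.re| ≤ 1 / 2) : ∃ C T0 : ℝ, 0 < C ∧ 30 ≤ T0 ∧ ∀ T : ℝ, T0 ≤ T →
    ∃ U ∈ Set.Icc T (T + 1), GH X C U := by
  classical
  obtain ⟨K1, T1, hK1, hT1, h1⟩ := norm_data hC
  obtain ⟨K2, T2, hK2, hT2, h2⟩ := jens hC
  have hX := hC.cf.diff
  have hq : 0 < Real.log (7 / 6) := Real.log_pos (by norm_num)
  have hr : 0 < Real.log (6 / (7 - 6)) := Real.log_pos (by norm_num)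
  obtain ⟨D, hD⟩ : ∃ D : ℝ, D = K1 / Real.log (7 / 6) * (2 * (K2 + 1)) +
    2 * (K1 + K1 / Real.log (7 / 6) * Real.log (6 / (7 - 6)) + 1) * 5 := ⟨_, rfl⟩
  have hD0 : 0 < D := by rw [hD]; positivity
  refine ⟨4 * D, max T1 T2, by positivity, hT1.trans (le_max_left _ _), fun T hT => ?_⟩
  have g1 : T1 ≤ T := (le_max_left _ _).trans hT
  have g2 : T2 ≤ T := (le_max_right _ _).trans hT
  have hfin := fin_win hC hst (T - 7) (T + 7)
  obtain ⟨Γ, hΓ⟩ : ∃ Γ : Finset ℝ, Γ = hfin.toFinset.image (fun s : ℂ => s.im) := ⟨_, rfl⟩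
  obtain ⟨U, hU, hUΓ⟩ := pigeon Γ T
  refine ⟨U, hU, ?_⟩
  have hU1 : T ≤ U := hU.1
  have hU2 : U ≤ T + 1 := hU.2
  have hlU : 1 ≤ Real.log U := H370.Loc.one_le_log (by linarith)
  have hcard : (Γ.card : ℝ) ≤ K2 * Real.log U := by
    have a1 : Γ.card ≤ hfin.toFinset.card := by
      rw [hΓ]
      exact Finset.card_image_le
    have a2 : (hfin.toFinset.card : ℝ) ≤ ∑ z ∈ hfin.toFinset, (analyticOrderNatAt X z : ℝ) := by
      rw [Finset.card_eq_sum_ones]
      push_cast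
      refine Finset.sum_le_sum fun z hz => ?_
      rw [Set.Finite.mem_toFinset] at hz
      exact_mod_cast Nat.one_le_iff_ne_zero.2 ((ord_pos hC hst).1 hz.1)
    have a3 := h2 U (g2.trans hU1) hfin.toFinset (fun z hz => by
      rw [Set.Finite.mem_toFinset] at hz
      refine ⟨hst z hz.1, ?_⟩
      rw [abs_le]
      constructor <;> linarith [hz.2.1, hz.2.2])
    have a4 : (Γ.card : ℝ) ≤ hfin.toFinset.card := by exact_mod_cast a1
    linarith
  obtain ⟨a, M, ha, hM, k1, k2, k3⟩ := h1 U (g1.trans hU1)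
  have hfd : Differentiable ℂ (fun w => a * X w) := hX.const_mul a
  have hsub : closedBall (I * U + 2 : ℂ) 7 ⊆ closedBall (I * U + 2 : ℂ) 18 := closedBall_subset_closedBall (by norm_num)
  have hL := landau (f := fun w => a * X w) (c := I * U + 2) (r := 6) (r1 := 5) (r2 := 4) (R := 7) (M := M)
    (by norm_num) (by norm_num) (by norm_num) (by norm_num) (by norm_num) hM
    (k1 _ (mem_closedBall_self (by norm_num))) (fun z _ => hfd.analyticAt z) k2 (fun z hz => k1 z (hsub hz))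
  intro x hx
  obtain ⟨δ, hδ⟩ : ∃ δ : ℝ, δ = 1 / (2 * ((Γ.card : ℝ) + 1)) := ⟨_, rfl⟩
  have hδ0 : 0 < δ := by rw [hδ]; positivity
  have hz4 : (⟨x, U⟩ : ℂ) ∈ closedBall (I * U + 2 : ℂ) 4 := by
    rw [mem_closedBall, dist_eq_norm]
    have e : (⟨x, U⟩ : ℂ) - (I * U + 2) = ((x - 2 : ℝ) : ℂ) := by
      apply Complex.ext <;> simp
    rw [e, Complex.norm_real, Real.norm_eq_abs, abs_le]
    constructor <;> linarith [hx.1, hx.2]
  obtain ⟨l1, l2⟩ := hL ⟨x, U⟩ hz4 δ hδ0 (fun ρ hρ h0 => by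
    have h0' : X ρ = 0 := (mul_eq_zero.1 h0).resolve_left ha
    have him : |ρ.im - U| ≤ 6 := by
      rw [mem_closedBall, dist_eq_norm] at hρ
      have := (Complex.abs_im_le_norm (ρ - (I * U + 2))).trans hρ
      have e2 : (ρ - (I * U + 2)).im = ρ.im - U := by simp
      rwa [e2] at this
    have hmem : ρ.im ∈ Γ := by
      rw [hΓ, Finset.mem_image]
      refine ⟨ρ, ?_, rfl⟩
      rw [Set.Finite.mem_toFinset]
      rw [abs_le] at him
      exact ⟨h0', by linarith [him.1], by linarith [him.2]⟩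
    rw [hδ]
    refine (hUΓ _ hmem).trans ?_
    have := Complex.abs_im_le_norm ((⟨x, U⟩ : ℂ) - ρ)
    simpa using this)
  have hder : deriv (fun w => a * X w) ⟨x, U⟩ / (a * X ⟨x, U⟩) = deriv X ⟨x, U⟩ / X ⟨x, U⟩ := by
    rw [deriv_const_mul_field, mul_div_mul_left _ _ ha]
  rw [hder] at l2
  refine ⟨fun h0 => l1 (by simp only [h0, mul_zero]), l2.trans ?_⟩
  obtain ⟨Q, hQ⟩ : ∃ Q : ℝ, Q = Real.log (M / ‖a * X (I * U + 2)‖) := ⟨_, rfl⟩
  obtain ⟨ℓ, hℓ⟩ : ∃ ℓ : ℝ, ℓ = Real.log U := ⟨_, rfl⟩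
  rw [← hQ, ← hℓ] at k3
  rw [← hQ]
  rw [← hℓ] at hcard hlU
  have hℓ0 : 0 ≤ ℓ := by linarith
  have hinv : 1 / δ ≤ 2 * (K2 + 1) * ℓ := by
    rw [hδ, one_div_one_div]
    nlinarith
  have hQ0 : Q ≤ K1 * ℓ := k3
  have t1 : Q / Real.log (7 / 6) / δ ≤ K1 / Real.log (7 / 6) * (2 * (K2 + 1)) * ℓ ^ 2 := by
    calc Q / Real.log (7 / 6) / δ = Q / Real.log (7 / 6) * (1 / δ) := by ring
      _ ≤ K1 * ℓ / Real.log (7 / 6) * (2 * (K2 + 1) * ℓ) := by gcongr
      _ = _ := by ring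
  have t2 : 2 * (Q + Q / Real.log (7 / 6) * Real.log (6 / (7 - 6)) + 1) * 5 / (6 - 5) / (5 - 4) ≤
      2 * (K1 + K1 / Real.log (7 / 6) * Real.log (6 / (7 - 6)) + 1) * 5 * ℓ ^ 2 := by
    have e1 : 2 * (Q + Q / Real.log (7 / 6) * Real.log (6 / (7 - 6)) + 1) * 5 / (6 - 5) / (5 - 4) =
        2 * (Q + Q / Real.log (7 / 6) * Real.log (6 / (7 - 6)) + 1) * 5 := by norm_num
    rw [e1]
    have e2 : Q / Real.log (7 / 6) * Real.log (6 / (7 - 6)) ≤ K1 * ℓ / Real.log (7 / 6) * Real.log (6 / (7 - 6)) := by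
      gcongr
    have e3 : 2 * (Q + Q / Real.log (7 / 6) * Real.log (6 / (7 - 6)) + 1) * 5 ≤
        2 * (K1 * ℓ + K1 * ℓ / Real.log (7 / 6) * Real.log (6 / (7 - 6)) + 1 * ℓ) * 5 := by linarith
    have e4 : 2 * (K1 * ℓ + K1 * ℓ / Real.log (7 / 6) * Real.log (6 / (7 - 6)) + 1 * ℓ) * 5 =
        2 * (K1 + K1 / Real.log (7 / 6) * Real.log (6 / (7 - 6)) + 1) * 5 * ℓ := by ring
    have e5 : ℓ ≤ ℓ ^ 2 := by nlinarith
    rw [e4] at e3
    refine e3.trans ?_
    gcongr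
  have t3 : ℓ ^ 2 ≤ 4 * U := by
    rw [hℓ]
    exact H370.log_sq_le (by linarith)
  calc _ ≤ K1 / Real.log (7 / 6) * (2 * (K2 + 1)) * ℓ ^ 2 +
        2 * (K1 + K1 / Real.log (7 / 6) * Real.log (6 / (7 - 6)) + 1) * 5 * ℓ ^ 2 := add_le_add t1 t2
    _ = D * ℓ ^ 2 := by rw [hD]; ring
    _ ≤ D * (4 * U) := by gcongr
    _ = _ := by ring

end

end Pool.Agent.U742.LA
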