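import Pool.Agent.U742.LA.Ct

/-!
# The Riemann-von Mangoldt formula for completed L-functions, second part
-/

set_option autoImplicit false

open Complex Filter Topology MeasureTheory Metric
open scoped ComplexConjugate

namespace Pool.Agent.U742.LA

open Pool.Agent.Y671.GL (CG)
open H370 (mult)
open Pool.Agent.N831.LP (MX MS P2 zsX dl dl_orderNat)

noncomputable section

variable {κ : ℝ} {H X Z : ℂ → ℂ}

/-- the logarithmic derivative at the reflected point -/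
lemma ld_symm (hX : Differentiable ℂ X) (hs : ∀ z : ℂ, X (-(conj z)) = conj (X z)) (w : ℂ) :
    deriv X (-(conj w)) / X (-(conj w)) = -conj (deriv X w / X w) := by
  have h1 : HasDerivAt (fun z => conj (X (conj z))) (conj (deriv X w)) (conj w) := by
    have := (hX w).hasDerivAt.conj_conj
    exact this
  have h2 : HasDerivAt (fun z => conj (X (conj (-z)))) (-conj (deriv X w)) (-(conj w)) := by
    have h3 : HasDerivAt (fun z : ℂ => -z) (-1) (-(conj w)) := (hasDerivAt_id _).neg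
    have h4 : HasDerivAt (fun z => conj (X (conj z))) (conj (deriv X w)) (-(-(conj w))) := by
      rw [neg_neg]
      exact h1
    have h5 := h4.comp (-(conj w)) h3
    have e : conj (deriv X w) * -1 = -conj (deriv X w) := by ring
    rw [e] at h5
    exact h5
  have e : (fun z => conj (X (conj (-z)))) = X := by
    funext z
    rw [map_neg, hs, Complex.conj_conj]
  rw [e] at h2
  rw [h2.deriv, hs, map_div₀, neg_div]

lemma vert_cont (hC : CG κ H X Z) (hst : ∀ s, X s = 0 → |s.re| ≤ 1 / 2) {x : ℝ} (hx : 1 / 2 < |x|) :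
    Continuous (fun y : ℝ => deriv X (⟨x, y⟩ : ℂ) / X ⟨x, y⟩) := by
  have hX := hC.cf.diff
  have hmk : Continuous fun y : ℝ => (⟨x, y⟩ : ℂ) := by
    have : (fun y : ℝ => (⟨x, y⟩ : ℂ)) = fun y : ℝ => ((x : ℝ) : ℂ) + y * I := by
      funext y
      apply Complex.ext <;> simp
    rw [this]
    fun_prop
  have hd : Continuous (deriv X) := (hX.contDiff (n := 1)).continuous_deriv le_rfl
  refine (hd.comp hmk).div (hX.continuous.comp hmk) fun y h0 => ?_
  have := hst _ h0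
  simp only at this
  linarith

/-- the number of zeros between two good heights -/
lemma core (hC : CG κ H X Z) (hst : ∀ s, X s = 0 → |s.re| ≤ 1 / 2) {C : ℝ} (hC0 : 0 < C) : ∃ D T0 : ℝ, 0 < D ∧ 30 ≤ T0 ∧
    ∀ V1 V2 : ℝ, T0 ≤ V1 → V1 < V2 → V2 ≤ 4 * V1 → GH X C V1 → GH X C V2 →
      |Real.pi * ∑ᶠ z ∈ {z : ℂ | X z = 0 ∧ V1 < z.im ∧ z.im ≤ V2}, (analyticOrderNatAt X z : ℝ) -
        κ * ∫ y in V1..V2, Real.log y| ≤ D * V1 := by
  obtain ⟨K, T1, hK, hT1, hr⟩ := Pool.Agent.Y67.GL.xld hC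
  have hX := hC.cf.diff
  refine ⟨3 / 2 * (5 * C) + 4 * K, max 30 T1, by positivity, le_max_left _ _, fun V1 V2 h0 h12 h4 g1 g2 => ?_⟩
  have hV30 : 30 ≤ V1 := (le_max_left _ _).trans h0
  have hVT : T1 ≤ V1 := (le_max_right _ _).trans h0
  have hlow : ∀ s ∈ Set.Icc (-(3 / 2) : ℝ) (3 / 2) ×ℂ Set.Icc V1 V2, X s = 0 →
      s ∈ Set.Ioo (-(3 / 2) : ℝ) (3 / 2) ×ℂ Set.Ioo V1 V2 := by
    rintro s ⟨hs1, hs2⟩ hs0
    have hs1' : -(3 / 2 : ℝ) ≤ s.re ∧ s.re ≤ 3 / 2 := hs1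
    have hs2' : V1 ≤ s.im ∧ s.im ≤ V2 := hs2
    have h5 := abs_le.1 (hst s hs0)
    refine ⟨⟨by linarith [h5.1], by linarith [h5.2]⟩, ⟨lt_of_le_of_ne hs2'.1 fun he => ?_,
      lt_of_le_of_ne hs2'.2 fun he => ?_⟩⟩
    · apply (g1 s.re hs1').1
      rw [he]
      exact hs0
    · apply (g2 s.re hs1').1
      rw [← he]
      exact hs0
  obtain ⟨-, hres⟩ := H370.rect_residue X (fun _ => 1) (-(3 / 2)) (3 / 2) V1 V2 (by norm_num) h12
    (fun s _ => hX.analyticAt s) (by fun_prop) hlow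
  have hset : {s : ℂ | s ∈ Set.Ioo (-(3 / 2) : ℝ) (3 / 2) ×ℂ Set.Ioo V1 V2 ∧ X s = 0} =
      {z : ℂ | X z = 0 ∧ V1 < z.im ∧ z.im ≤ V2} := by
    ext s
    constructor
    · rintro ⟨⟨_, hs⟩, h5⟩
      exact ⟨h5, hs.1, hs.2.le⟩
    · rintro ⟨h5, h6, h7⟩
      have h8 := abs_le.1 (hst s h5)
      exact ⟨hlow s ⟨⟨by linarith [h8.1], by linarith [h8.2]⟩, ⟨h6.le, h7⟩⟩ h5, h5⟩
  have hfin : {z : ℂ | X z = 0 ∧ V1 < z.im ∧ z.im ≤ V2}.Finite :=
    (fin_win hC hst V1 V2).subset fun z hz => ⟨hz.1, hz.2.1.le, hz.2.2⟩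
  obtain ⟨N, hN⟩ : ∃ N : ℝ, N = ∑ᶠ z ∈ {z : ℂ | X z = 0 ∧ V1 < z.im ∧ z.im ≤ V2}, (analyticOrderNatAt X z : ℝ) := ⟨_, rfl⟩
  have hNc : ∑ᶠ s ∈ {z : ℂ | X z = 0 ∧ V1 < z.im ∧ z.im ≤ V2}, (mult X s : ℂ) * 1 = (N : ℂ) := by
    rw [hN, finsum_mem_eq_finite_toFinset_sum _ hfin, finsum_mem_eq_finite_toFinset_sum _ hfin]
    push_cast
    simp [mult]
  rw [hset, hNc] at hres
  simp only [mul_one] at hres
  rw [← hN]
  -- the sides
  have hpt : ∀ y : ℝ, (⟨3 / 2, y⟩ : ℂ) = I * y + ((3 / 2 : ℝ) : ℂ) := fun y => by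
    apply Complex.ext <;> simp
  have hrt : ∀ y : ℝ, V1 ≤ y → ‖deriv X (⟨3 / 2, y⟩ : ℂ) / X ⟨3 / 2, y⟩ - ((κ * Real.log y : ℝ) : ℂ)‖ ≤ K := by
    intro y hy
    have h5 := (hr y ((3 / 2 : ℝ) : ℂ) (hVT.trans hy) (by
      rw [Complex.norm_real, Real.norm_eq_abs, abs_of_pos (by norm_num)]
      linarith) (by rw [Complex.ofReal_re]; norm_num)).2.1
    rw [logDeriv_apply, ← hpt] at h5
    exact h5
  have hlt : ∀ y : ℝ, V1 ≤ y → ‖deriv X (⟨-(3 / 2), y⟩ : ℂ) / X ⟨-(3 / 2), y⟩ + ((κ * Real.log y : ℝ) : ℂ)‖ ≤ K := by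
    intro y hy
    have e1 : (⟨-(3 / 2), y⟩ : ℂ) = -(conj (⟨3 / 2, y⟩ : ℂ)) := by
      apply Complex.ext <;> simp
    rw [e1, ld_symm hX hC.cf.symm]
    have e2 : -conj (deriv X (⟨3 / 2, y⟩ : ℂ) / X ⟨3 / 2, y⟩) + ((κ * Real.log y : ℝ) : ℂ) =
        -conj (deriv X (⟨3 / 2, y⟩ : ℂ) / X ⟨3 / 2, y⟩ - ((κ * Real.log y : ℝ) : ℂ)) := by
      rw [map_sub, Complex.conj_ofReal]
      ring
    rw [e2, norm_neg, Complex.norm_conj]
    exact hrt y hy
  have hlogi : IntervalIntegrable (fun y : ℝ => ((κ * Real.log y : ℝ) : ℂ)) volume V1 V2 := by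
    apply ContinuousOn.intervalIntegrable
    rw [Set.uIcc_of_le h12.le]
    exact Complex.continuous_ofReal.comp_continuousOn
      ((Real.continuousOn_log.mono fun y hy => by
        have : 0 < y := by linarith [hy.1]
        exact this.ne').const_smul κ)
  have hc1 : IntervalIntegrable (fun y : ℝ => deriv X (⟨3 / 2, y⟩ : ℂ) / X ⟨3 / 2, y⟩) volume V1 V2 :=
    (vert_cont hC hst (x := 3 / 2) (by norm_num)).intervalIntegrable _ _
  have hc2 : IntervalIntegrable (fun y : ℝ => deriv X (⟨-(3 / 2), y⟩ : ℂ) / X ⟨-(3 / 2), y⟩) volume V1 V2 :=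
    (vert_cont hC hst (x := -(3 / 2)) (by norm_num)).intervalIntegrable _ _
  obtain ⟨L, hL⟩ : ∃ L : ℝ, L = ∫ y in V1..V2, Real.log y := ⟨_, rfl⟩
  have hLc : ∫ y in V1..V2, ((κ * Real.log y : ℝ) : ℂ) = ((κ * L : ℝ) : ℂ) := by
    rw [intervalIntegral.integral_ofReal, intervalIntegral.integral_const_mul, hL]
  rw [← hL]
  have b3 : ‖(∫ y in V1..V2, deriv X (⟨3 / 2, y⟩ : ℂ) / X ⟨3 / 2, y⟩) - ((κ * L : ℝ) : ℂ)‖ ≤ K * (V2 - V1) := by
    rw [← hLc, ← intervalIntegral.integral_sub hc1 hlogi]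
    have := intervalIntegral.norm_integral_le_of_norm_le_const (a := V1) (b := V2) (C := K)
      (f := fun y : ℝ => deriv X (⟨3 / 2, y⟩ : ℂ) / X ⟨3 / 2, y⟩ - ((κ * Real.log y : ℝ) : ℂ)) (fun y hy => by
        rw [Set.uIoc_of_le h12.le] at hy
        exact hrt y hy.1.le)
    rwa [abs_of_pos (by linarith)] at this
  have b4 : ‖(∫ y in V1..V2, deriv X (⟨-(3 / 2), y⟩ : ℂ) / X ⟨-(3 / 2), y⟩) + ((κ * L : ℝ) : ℂ)‖ ≤ K * (V2 - V1) := by
    rw [← hLc, ← intervalIntegral.integral_add hc2 hlogi]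
    have := intervalIntegral.norm_integral_le_of_norm_le_const (a := V1) (b := V2) (C := K)
      (f := fun y : ℝ => deriv X (⟨-(3 / 2), y⟩ : ℂ) / X ⟨-(3 / 2), y⟩ + ((κ * Real.log y : ℝ) : ℂ)) (fun y hy => by
        rw [Set.uIoc_of_le h12.le] at hy
        exact hlt y hy.1.le)
    rwa [abs_of_pos (by linarith)] at this
  have b1 : ‖∫ x in (-(3 / 2) : ℝ)..(3 / 2), deriv X (⟨x, V1⟩ : ℂ) / X ⟨x, V1⟩‖ ≤ C * V1 * 3 := by
    have := intervalIntegral.norm_integral_le_of_norm_le_const (a := -(3 / 2)) (b := 3 / 2) (C := C * V1)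
      (f := fun x : ℝ => deriv X (⟨x, V1⟩ : ℂ) / X ⟨x, V1⟩) (fun x hx => by
        rw [Set.uIoc_of_le (by norm_num)] at hx
        exact (g1 x ⟨hx.1.le, hx.2⟩).2)
    have e : |(3 / 2 : ℝ) - (-(3 / 2))| = 3 := by norm_num
    rwa [e] at this
  have b2 : ‖∫ x in (-(3 / 2) : ℝ)..(3 / 2), deriv X (⟨x, V2⟩ : ℂ) / X ⟨x, V2⟩‖ ≤ C * V2 * 3 := by
    have := intervalIntegral.norm_integral_le_of_norm_le_const (a := -(3 / 2)) (b := 3 / 2) (C := C * V2)
      (f := fun x : ℝ => deriv X (⟨x, V2⟩ : ℂ) / X ⟨x, V2⟩) (fun x hx => by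
        rw [Set.uIoc_of_le (by norm_num)] at hx
        exact (g2 x ⟨hx.1.le, hx.2⟩).2)
    have e : |(3 / 2 : ℝ) - (-(3 / 2))| = 3 := by norm_num
    rwa [e] at this
  set A1 := ∫ x in (-(3 / 2) : ℝ)..(3 / 2), deriv X (⟨x, V1⟩ : ℂ) / X ⟨x, V1⟩
  set A2 := ∫ x in (-(3 / 2) : ℝ)..(3 / 2), deriv X (⟨x, V2⟩ : ℂ) / X ⟨x, V2⟩
  set B := ∫ y in V1..V2, deriv X (⟨3 / 2, y⟩ : ℂ) / X ⟨3 / 2, y⟩
  set E := ∫ y in V1..V2, deriv X (⟨-(3 / 2), y⟩ : ℂ) / X ⟨-(3 / 2), y⟩
  have hkey : ((2 * (Real.pi * N - κ * L) : ℝ) : ℂ) * I = A1 - A2 + I * (B - ((κ * L : ℝ) : ℂ)) - I * (E + ((κ * L : ℝ) : ℂ)) := by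
    push_cast
    linear_combination -hres
  have hnorm : 2 * |Real.pi * N - κ * L| ≤ ‖A1‖ + ‖A2‖ + ‖B - ((κ * L : ℝ) : ℂ)‖ + ‖E + ((κ * L : ℝ) : ℂ)‖ := by
    have h1 : 2 * |Real.pi * N - κ * L| = ‖((2 * (Real.pi * N - κ * L) : ℝ) : ℂ) * I‖ := by
      rw [norm_mul, Complex.norm_I, mul_one, Complex.norm_real, Real.norm_eq_abs, abs_mul, abs_two]
    rw [h1, hkey]
    calc ‖A1 - A2 + I * (B - ((κ * L : ℝ) : ℂ)) - I * (E + ((κ * L : ℝ) : ℂ))‖
        ≤ ‖A1 - A2 + I * (B - ((κ * L : ℝ) : ℂ))‖ + ‖I * (E + ((κ * L : ℝ) : ℂ))‖ := norm_sub_le _ _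
      _ ≤ (‖A1 - A2‖ + ‖I * (B - ((κ * L : ℝ) : ℂ))‖) + ‖I * (E + ((κ * L : ℝ) : ℂ))‖ := by
          gcongr
          exact norm_add_le _ _
      _ ≤ ((‖A1‖ + ‖A2‖) + ‖I * (B - ((κ * L : ℝ) : ℂ))‖) + ‖I * (E + ((κ * L : ℝ) : ℂ))‖ := by
          gcongr
          exact norm_sub_le _ _
      _ = _ := by rw [norm_mul, norm_mul, Complex.norm_I]; ring
  have c1 : C * V2 ≤ 4 * (C * V1) := by nlinarith
  have c2 : K * (V2 - V1) ≤ 3 * (K * V1) := by nlinarith
  have c3 : 0 ≤ K * V1 := by positivity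
  have c4 : 0 ≤ C * V1 := by positivity
  linarith

/-- the order as a real function -/
def oX (X : ℂ → ℂ) (z : ℂ) : ℝ := (analyticOrderNatAt X z : ℝ)

lemma oX_nn (z : ℂ) : 0 ≤ oX X z := Nat.cast_nonneg _

/-- A Riemann-von Mangoldt formula. -/
def Cnt (κ : ℝ) (X : ℂ → ℂ) : Prop := ∃ C T0 : ℝ, 0 < C ∧ 30 ≤ T0 ∧ ∀ T : ℝ, T0 ≤ T → ∀ h : ℝ, 0 ≤ h → h ≤ T →
  (zw (oX X) T (T + h)).Finite ∧ |Nr (oX X) T (T + h) - h * Real.log T * (κ / Real.pi)| ≤ C * T

lemma zw_oX (hC : CG κ H X Z) (hst : ∀ s, X s = 0 → |s.re| ≤ 1 / 2) (T1 T2 : ℝ) :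
    zw (oX X) T1 T2 = {z : ℂ | X z = 0 ∧ T1 < z.im ∧ z.im ≤ T2} := by
  ext z
  unfold zw oX
  simp only [Set.mem_ofPred_eq]
  rw [ord_pos hC hst]
  norm_cast

theorem cnt_of (hC : CG κ H X Z) (hst : ∀ s, X s = 0 → |s.re| ≤ 1 / 2) : Cnt κ X := by
  classical
  obtain ⟨C, T1, hC0, hT1, hg⟩ := good hC hst
  obtain ⟨D, T2, hD, hT2, hc⟩ := core hC hst hC0
  obtain ⟨K, T3, hK, hT3, hj⟩ := jens hC
  have hκ := hC.cf.κ_pos
  have hpi := Real.pi_gt_three
  have hfin : ∀ a b : ℝ, {z : ℂ | X z = 0 ∧ a < z.im ∧ z.im ≤ b}.Finite := fun a b =>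
    (fin_win hC hst a b).subset fun z hz => ⟨hz.1, hz.2.1.le, hz.2.2⟩
  obtain ⟨N, hN⟩ : ∃ N : ℝ → ℝ → ℝ, ∀ a b, N a b = ∑ z ∈ (hfin a b).toFinset, (analyticOrderNatAt X z : ℝ) :=
    ⟨fun a b => ∑ z ∈ (hfin a b).toFinset, (analyticOrderNatAt X z : ℝ), fun _ _ => rfl⟩
  have hNr : ∀ a b, Nr (oX X) a b = N a b := fun a b => by
    unfold Nr
    rw [zw_oX hC hst, finsum_mem_eq_finite_toFinset_sum _ (hfin a b), hN]
    rfl
  have hmono : ∀ a b a' b' : ℝ, a' ≤ a → b ≤ b' → N a b ≤ N a' b' := by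
    intro a b a' b' h1 h2
    rw [hN, hN]
    refine Finset.sum_le_sum_of_subset_of_nonneg (fun z hz => ?_) fun _ _ _ => Nat.cast_nonneg _
    rw [Set.Finite.mem_toFinset] at hz ⊢
    exact ⟨hz.1, by linarith [hz.2.1], by linarith [hz.2.2]⟩
  have hsub : ∀ a b c : ℝ, a ≤ b → b ≤ c → N a c ≤ N a b + N b c := by
    intro a b c h1 h2
    rw [hN, hN, hN]
    have h3 : (hfin a c).toFinset ⊆ (hfin a b).toFinset ∪ (hfin b c).toFinset := by
      intro z hz
      rw [Finset.mem_union, Set.Finite.mem_toFinset, Set.Finite.mem_toFinset]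
      rw [Set.Finite.mem_toFinset] at hz
      rcases le_or_gt z.im b with h | h
      · exact Or.inl ⟨hz.1, hz.2.1, h⟩
      · exact Or.inr ⟨hz.1, h, hz.2.2⟩
    refine (Finset.sum_le_sum_of_subset_of_nonneg h3 fun _ _ _ => Nat.cast_nonneg _).trans ?_
    rw [← Finset.sum_union_inter]
    have : 0 ≤ ∑ z ∈ (hfin a b).toFinset ∩ (hfin b c).toFinset, (analyticOrderNatAt X z : ℝ) :=
      Finset.sum_nonneg fun _ _ => Nat.cast_nonneg _
    linarith
  have hshort : ∀ T : ℝ, T3 ≤ T → N T (T + 4) ≤ K * Real.log T := by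
    intro T hT
    rw [hN]
    refine hj T hT _ fun z hz => ?_
    rw [Set.Finite.mem_toFinset] at hz
    refine ⟨hst z hz.1, ?_⟩
    rw [abs_le]
    constructor <;> linarith [hz.2.1, hz.2.2]
  refine ⟨D + 6 * κ + 4 * K, max T1 (max T2 T3), by positivity, hT1.trans (le_max_left _ _), fun T hT h h0 hh => ?_⟩
  have g1 : T1 ≤ T := (le_max_left _ _).trans hT
  have g2 : T2 ≤ T := (le_max_left _ _).trans ((le_max_right _ _).trans hT)
  have g3 : T3 ≤ T := (le_max_right _ _).trans ((le_max_right _ _).trans hT)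
  have hT30 : 30 ≤ T := hT1.trans g1
  refine ⟨by rw [zw_oX hC hst]; exact hfin _ _, ?_⟩
  rw [hNr]
  have hlT : 1 ≤ Real.log T := H370.Loc.one_le_log (by linarith)
  have hlT2 : Real.log T ≤ T := by
    have := Real.log_le_sub_one_of_pos (show 0 < T by linarith)
    linarith
  have hl3 : Real.log (T + h) ≤ 2 * Real.log T := by
    have h1 : Real.log (T + h) ≤ Real.log (T ^ 2) := Real.log_le_log (by linarith) (by nlinarith)
    rw [Real.log_pow] at h1
    exact_mod_cast h1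
  have hl4 : Real.log (T + h) ≤ Real.log T + 1 := by
    have h1 : Real.log (T + h) ≤ Real.log (2 * T) := Real.log_le_log (by linarith) (by linarith)
    rw [Real.log_mul (by norm_num) (by linarith)] at h1
    have := Real.log_two_lt_d9
    linarith
  have hN0 : ∀ a b, 0 ≤ N a b := fun a b => by
    rw [hN]
    exact Finset.sum_nonneg fun _ _ => Nat.cast_nonneg _
  have hκp : κ / Real.pi ≤ κ := div_le_self hκ.le (by linarith)
  have hκp0 : 0 < κ / Real.pi := by positivity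
  have hKT : K * Real.log T ≤ K * T := by gcongr
  rcases le_or_gt h 2 with h2 | h2
  · -- short interval
    have s1 := hshort T g3
    have s2 := hmono T (T + h) T (T + 4) le_rfl (by linarith)
    have s3 := hN0 T (T + h)
    have s4 : h * Real.log T * (κ / Real.pi) ≤ 2 * T * κ := by gcongr
    have s5 : 0 ≤ h * Real.log T * (κ / Real.pi) := by positivity
    have s6 : 0 < D * T := by positivity
    have s7 : 0 < K * T := by positivity
    have s8 : 0 < κ * T := by positivity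
    rw [abs_le]
    constructor <;> nlinarith
  · obtain ⟨V1, ⟨v1, v2⟩, w1⟩ := hg T g1
    obtain ⟨V2, ⟨v3, v4⟩, w2⟩ := hg (T + h) (by linarith)
    have hV12 : V1 < V2 := by linarith
    have hV1 : V1 ≤ 2 * T := by linarith
    have hcore := hc V1 V2 (g2.trans v1) hV12 (by linarith) w1 w2
    have hNN : ∑ᶠ z ∈ {z : ℂ | X z = 0 ∧ V1 < z.im ∧ z.im ≤ V2}, (analyticOrderNatAt X z : ℝ) = N V1 V2 := by
      rw [hN, finsum_mem_eq_finite_toFinset_sum _ (hfin V1 V2)]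
    rw [hNN] at hcore
    -- comparison of the counts
    have a1 : N V1 V2 ≤ N T (T + h) + K * (2 * T) := by
      have b1 : N V1 V2 ≤ N T (T + h + 4) := hmono _ _ _ _ v1 (by linarith)
      have b2 := hsub T (T + h) (T + h + 4) (by linarith) (by linarith)
      have b3 := hshort (T + h) (by linarith)
      have b4 : K * Real.log (T + h) ≤ K * (2 * T) := by
        gcongr
        linarith
      linarith
    have a2 : N T (T + h) ≤ N V1 V2 + K * T := by
      have b1 : N T (T + h) ≤ N T V2 := hmono _ _ _ _ le_rfl v3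
      have b2 := hsub T V1 V2 v1 hV12.le
      have b3 : N T V1 ≤ N T (T + 4) := hmono _ _ _ _ le_rfl (by linarith)
      have b4 := hshort T g3
      linarith
    -- the integral
    have hint : IntervalIntegrable Real.log volume V1 V2 := intervalIntegral.intervalIntegrable_log'
    have i1 : Real.log T * (V2 - V1) ≤ ∫ y in V1..V2, Real.log y := by
      have := intervalIntegral.integral_mono_on (f := fun _ => Real.log T) hV12.le (by simp) hint
        (fun y hy => Real.log_le_log (by linarith) (v1.trans hy.1))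
      rw [intervalIntegral.integral_const, smul_eq_mul] at this
      linarith
    have i2 : ∫ y in V1..V2, Real.log y ≤ (Real.log T + 2) * (V2 - V1) := by
      have := intervalIntegral.integral_mono_on (g := fun _ => Real.log T + 2) hV12.le hint (by simp)
        (fun y hy => by
          have e1 : Real.log y ≤ Real.log (2 * (T + h)) := Real.log_le_log (by linarith [hy.1]) (by linarith [hy.2])
          rw [Real.log_mul (by norm_num) (by linarith)] at e1
          have := Real.log_two_lt_d9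
          linarith)
      rw [intervalIntegral.integral_const, smul_eq_mul] at this
      linarith
    obtain ⟨J, hJ⟩ : ∃ J : ℝ, J = ∫ y in V1..V2, Real.log y := ⟨_, rfl⟩
    rw [← hJ] at hcore i1 i2
    have j1 : h * Real.log T - T ≤ J := by
      have : (h - 1) * Real.log T ≤ Real.log T * (V2 - V1) := by nlinarith
      nlinarith
    have j2 : J ≤ h * Real.log T + 4 * T := by
      have e1 : (Real.log T + 2) * (V2 - V1) ≤ (Real.log T + 2) * (h + 1) := by
        apply mul_le_mul_of_nonneg_left _ (by linarith)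
        linarith
      nlinarith
    have k1 : |Real.pi * N T (T + h) - κ * (h * Real.log T)| ≤ D * (2 * T) + κ * (4 * T) + Real.pi * (K * (2 * T)) := by
      have l1 := abs_le.1 hcore
      have l2 : D * V1 ≤ D * (2 * T) := by gcongr
      have l3 : κ * J ≤ κ * (h * Real.log T + 4 * T) := by gcongr
      have l4 : κ * (h * Real.log T - T) ≤ κ * J := by gcongr
      have l5 : Real.pi * N V1 V2 ≤ Real.pi * (N T (T + h) + K * (2 * T)) := by gcongr
      have l6 : Real.pi * N T (T + h) ≤ Real.pi * (N V1 V2 + K * T) := by gcongr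
      have l7 : 0 ≤ Real.pi * (K * T) := by positivity
      have l8 : 0 ≤ κ * T := by positivity
      rw [abs_le]
      constructor <;> nlinarith [l1.1, l1.2]
    have k2 : |N T (T + h) - h * Real.log T * (κ / Real.pi)| * Real.pi = |Real.pi * N T (T + h) - κ * (h * Real.log T)| := by
      rw [← abs_of_pos Real.pi_pos, ← abs_mul, abs_of_pos Real.pi_pos]
      congr 1
      field_simp
    have hpi0 := Real.pi_pos
    rw [← k2] at k1
    have k3 : |N T (T + h) - h * Real.log T * (κ / Real.pi)| * 3 ≤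
        |N T (T + h) - h * Real.log T * (κ / Real.pi)| * Real.pi := by gcongr
    have m1 : 0 ≤ D * T := by positivity
    have m2 : 0 ≤ κ * T := by positivity
    have m3 : 0 ≤ K * T := by positivity
    have m4 : Real.pi ≤ 4 := Real.pi_le_four
    have m5 : Real.pi * (K * (2 * T)) ≤ 4 * (K * (2 * T)) := by gcongr
    linarith

end

end Pool.Agent.U742.LA
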