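import Pool.Agent.U742.LA.Ct2
import Pool.Agent.U742.LA.Cm
import Pool.Agent.N831.LP.K

/-!
# The asymptotic law for the Li coefficients of a completed L-function
-/

set_option autoImplicit false

open Filter Topology Complex
open scoped ComplexConjugate

namespace Pool.Agent.U742.LA

open Pool.Agent.N831.LI (W Zs Dn li)
open Pool.Agent.N831.LP (MX MS P2 zsX dnS liX liX_eq li_scale lam lam_eq cond symm_zero ZeroFree asy_le
  half_tendsto zeroFree_of negative)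

noncomputable section

variable {κ0 : ℝ} {X : ℂ → ℂ}

lemma ms_oX (hr : ∀ z, oX X (conj z) = oX X z) (z : ℂ) : MS X z = 2 * oX X (2 * z) := by
  have h1 := hr (2 * z)
  unfold oX at h1
  unfold MS MX oX
  rw [h1]
  ring

lemma nr_ms (hr : ∀ z, oX X (conj z) = oX X z) {T1 T2 : ℝ} (hf : (zw (oX X) (2 * T1) (2 * T2)).Finite) :
    Nr (MS X) T1 T2 = 2 * Nr (oX X) (2 * T1) (2 * T2) := by
  have him : ∀ z : ℂ, (2 * z).im = 2 * z.im := fun z => by simp
  have h1 : Nr (MS X) T1 T2 = ∑ᶠ w ∈ zw (oX X) (2 * T1) (2 * T2), 2 * oX X w := by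
    unfold Nr
    refine finsum_mem_eq_of_bijOn (fun z => 2 * z) ⟨fun z hz => ?_, fun a _ b _ hab => ?_, fun w hw => ?_⟩
      (fun z _ => ms_oX hr z)
    · obtain ⟨a1, a2, a3⟩ := hz
      rw [ms_oX hr] at a1
      refine ⟨fun h0 => a1 (by rw [h0, mul_zero]), ?_, ?_⟩
      · rw [him]; linarith
      · rw [him]; linarith
    · simpa using hab
    · obtain ⟨a1, a2, a3⟩ := hw
      refine ⟨w / 2, ⟨?_, ?_, ?_⟩, by ring⟩
      · rw [ms_oX hr]
        rw [show 2 * (w / 2) = w by ring]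
        exact mul_ne_zero two_ne_zero a1
      · have := him (w / 2)
        rw [show 2 * (w / 2) = w by ring] at this
        linarith
      · have := him (w / 2)
        rw [show 2 * (w / 2) = w by ring] at this
        linarith
  rw [h1]
  unfold Nr
  rw [finsum_mem_eq_finite_toFinset_sum _ hf, finsum_mem_eq_finite_toFinset_sum _ hf, Finset.mul_sum]

/-- **the Riemann-von Mangoldt formula for the scaled data** -/
theorem rm_ms (hκ : 1 / 2 ≤ κ0) (h : P2 κ0 X) (hc : Cnt κ0 X) (hr : ∀ z, oX X (conj z) = oX X z) :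
    Rm (MS X) (4 * κ0 / Real.pi) := by
  obtain ⟨C, T0, hC, hT0, hcn⟩ := hc
  have hpi := Real.pi_gt_three
  have hκ0 : 0 < κ0 := by linarith
  refine Rm.of (zsX hκ h) (by positivity) (C := 4 * C + 4 * κ0) (T0 := T0) (by positivity) fun T hT H h0 hH => ?_
  have hT30 : 30 ≤ T := hT0.trans hT
  obtain ⟨f1, f2⟩ := hcn (2 * T) (by linarith) (2 * H) (by linarith) (by linarith)
  have e1 : 2 * T + 2 * H = 2 * (T + H) := by ring
  rw [e1] at f1 f2
  rw [nr_ms hr f1]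
  obtain ⟨N, hN⟩ : ∃ N : ℝ, N = Nr (oX X) (2 * T) (2 * (T + H)) := ⟨_, rfl⟩
  rw [← hN] at f2 ⊢
  have e2 : 2 * N - H * Real.log T * (4 * κ0 / Real.pi) =
      2 * (N - 2 * H * Real.log (2 * T) * (κ0 / Real.pi)) + 4 * H * Real.log 2 * (κ0 / Real.pi) := by
    rw [Real.log_mul (by norm_num) (by linarith)]
    ring
  rw [e2]
  refine (abs_add_le _ _).trans ?_
  rw [abs_mul, abs_two]
  have hκp : κ0 / Real.pi ≤ κ0 := div_le_self hκ0.le (by linarith)
  have hκp0 : 0 < κ0 / Real.pi := by positivity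
  have hl2 : Real.log 2 ≤ 1 := by
    have := Real.log_two_lt_d9
    linarith
  have hl20 : 0 ≤ Real.log 2 := Real.log_nonneg (by norm_num)
  have e3 : |4 * H * Real.log 2 * (κ0 / Real.pi)| ≤ 4 * κ0 * T := by
    rw [abs_of_nonneg (by positivity)]
    calc 4 * H * Real.log 2 * (κ0 / Real.pi) ≤ 4 * T * 1 * κ0 := by gcongr
      _ = _ := by ring
  linarith

/-- from `(a - x0) / 2` to `a` in the main term -/
lemma shift (x0 D : ℝ) {ε : ℝ} (hε : 0 < ε) : ∀ᶠ a : ℝ in atTop, ∀ n : ℕ, 1 ≤ n → ∀ x : ℝ,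
    |2 * x - 4 * D * (n * ((a - x0) / 2) * Real.log (n * ((a - x0) / 2)))| ≤
      ε / 2 * (n * ((a - x0) / 2) * Real.log (n * ((a - x0) / 2))) →
    |x - D * (n * a * Real.log (n * a))| ≤ ε * (n * a * Real.log (n * a)) := by
  have hD0 := abs_nonneg D
  have hx0 := abs_nonneg x0
  -- thresholds
  have t1 := Real.tendsto_log_atTop.eventually_ge_atTop (max 1 (8 * (|D| + 1) / ε))
  filter_upwards [t1, eventually_ge_atTop (max 4 (4 * |x0|)), eventually_ge_atTop (8 * (|D| + 1) * |x0| / ε)]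
    with a h1 h2 h3 n hn x hx
  have hl1 : 1 ≤ Real.log a := (le_max_left _ _).trans h1
  have hl2 : 8 * (|D| + 1) / ε ≤ Real.log a := (le_max_right _ _).trans h1
  have ha4 : 4 ≤ a := (le_max_left _ _).trans h2
  have hax : 4 * |x0| ≤ a := (le_max_right _ _).trans h2
  have hn1 : (1 : ℝ) ≤ n := by exact_mod_cast hn
  have hn0 : (0 : ℝ) < n := by linarith
  have ha0 : 0 < a := by linarith
  have hx1 := le_abs_self x0
  have hx2 := neg_abs_le x0
  obtain ⟨b, hb⟩ : ∃ b : ℝ, b = (a - x0) / 2 := ⟨_, rfl⟩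
  rw [← hb] at hx
  have hb1 : 1 ≤ b := by rw [hb]; linarith
  have hb0 : 0 < b := by linarith
  have hba : b ≤ a := by rw [hb]; linarith
  obtain ⟨ℓ, hℓ⟩ : ∃ ℓ : ℝ, ℓ = Real.log (n * a) := ⟨_, rfl⟩
  obtain ⟨m, hm⟩ : ∃ m : ℝ, m = Real.log (n * b) := ⟨_, rfl⟩
  rw [← hm] at hx
  rw [← hℓ]
  have haℓ : Real.log a ≤ ℓ := by
    rw [hℓ]
    exact Real.log_le_log ha0 (le_mul_of_one_le_left ha0.le hn1)
  have hmℓ : m ≤ ℓ := by
    rw [hm, hℓ]
    exact Real.log_le_log (by positivity) (by gcongr)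
  have hm0 : 0 ≤ m := by
    rw [hm]
    exact Real.log_nonneg (by nlinarith)
  have hℓm : ℓ - m ≤ 2 := by
    rw [hℓ, hm, ← Real.log_div (by positivity) (by positivity)]
    have e : (n : ℝ) * a / (n * b) = a / b := by field_simp
    rw [e]
    have e2 : a / b ≤ 4 := by
      rw [div_le_iff₀ hb0, hb]
      linarith
    have e3 := Real.log_le_log (by positivity) e2
    have e4 : Real.log 4 = 2 * Real.log 2 := by
      rw [show (4 : ℝ) = 2 ^ 2 by norm_num, Real.log_pow]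
      push_cast
      ring
    have := Real.log_two_lt_d9
    linarith
  -- `|2 b m - a ℓ| ≤ |x0| ℓ + 2 a * 2`
  have hdiff : |2 * (b * m) - a * ℓ| ≤ |x0| * ℓ + 4 * a := by
    have e : 2 * (b * m) - a * ℓ = -(x0 * ℓ) - (2 * b) * (ℓ - m) := by rw [hb]; ring
    rw [e]
    refine (abs_sub _ _).trans ?_
    rw [abs_neg, abs_mul, abs_mul]
    have hℓ0 : 0 ≤ ℓ := by linarith
    rw [abs_of_nonneg hℓ0, abs_of_nonneg (show 0 ≤ 2 * b by linarith), abs_of_nonneg (show 0 ≤ ℓ - m by linarith)]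
    have : 2 * b * (ℓ - m) ≤ 2 * a * 2 := by
      apply mul_le_mul _ hℓm (by linarith) (by linarith)
      linarith
    linarith
  rw [div_le_iff₀ hε] at hl2 h3
  have hℓ1 : 1 ≤ ℓ := by linarith
  have hsmall : 2 * (|D| + 1) * (|x0| * ℓ + 4 * a) ≤ ε * (a * ℓ) + ε / 4 * (a * ℓ) := by
    have c1 : 8 * (|D| + 1) * |x0| * ℓ ≤ a * ε * ℓ := by gcongr
    have c2 : 8 * (|D| + 1) * a ≤ Real.log a * ε * a := by gcongr
    have c3 : Real.log a * ε * a ≤ ℓ * ε * a := by gcongr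
    linarith
  have e5 : x - D * (n * a * ℓ) = (2 * x - 4 * D * (n * b * m)) / 2 + D * n * (2 * (b * m) - a * ℓ) := by ring
  rw [e5]
  refine (abs_add_le _ _).trans ?_
  rw [abs_div, abs_two, abs_mul, abs_mul, abs_of_pos hn0]
  have f1 : ε / 2 * (n * b * m) ≤ ε / 2 * (n * a * ℓ) := by gcongr
  have f2 : |D| * n * |2 * (b * m) - a * ℓ| ≤ |D| * n * (|x0| * ℓ + 4 * a) := by gcongr
  have f3 : 0 ≤ |x0| * ℓ + 4 * a := by positivity
  have f4 : |D| * n * (|x0| * ℓ + 4 * a) ≤ n * ((ε * (a * ℓ) + ε / 4 * (a * ℓ)) / 2) := by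
    have : |D| * (|x0| * ℓ + 4 * a) ≤ (ε * (a * ℓ) + ε / 4 * (a * ℓ)) / 2 := by nlinarith
    calc |D| * n * (|x0| * ℓ + 4 * a) = n * (|D| * (|x0| * ℓ + 4 * a)) := by ring
      _ ≤ _ := by gcongr
  have f5 : 0 ≤ n * (ε * (a * ℓ)) := by positivity
  nlinarith

/-- The law with the constant `D` as `a → ∞`, uniformly for `1 ≤ n ≤ κ a log a`. -/
def LawL (L : ℝ → ℕ → ℝ) (D κ : ℝ) : Prop := ∀ ε : ℝ, 0 < ε → ∀ᶠ a : ℝ in atTop, ∀ n : ℕ, 1 ≤ n →
  (n : ℝ) ≤ κ * a * Real.log a → |L a n - D * (n * a * Real.log (n * a))| ≤ ε * (n * a * Real.log (n * a))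

/-- The law with the constant `D` as `a → ∞`, uniformly for all `n ≥ 1`. -/
def LawA (L : ℝ → ℕ → ℝ) (D : ℝ) : Prop := ∀ ε : ℝ, 0 < ε → ∀ᶠ a : ℝ in atTop, ∀ n : ℕ, 1 ≤ n →
  |L a n - D * (n * a * Real.log (n * a))| ≤ ε * (n * a * Real.log (n * a))

lemma LawL.mono {L : ℝ → ℕ → ℝ} {D κ κ' : ℝ} (h : κ ≤ κ') (h1 : LawL L D κ') : LawL L D κ := by
  intro ε hε
  filter_upwards [h1 ε hε, eventually_ge_atTop (1 : ℝ)] with a ha ha1 n hn hnk
  refine ha n hn (hnk.trans ?_)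
  have h2 := Real.log_nonneg ha1
  gcongr

lemma LawA.lawL {L : ℝ → ℕ → ℝ} {D : ℝ} (h : LawA L D) (κ : ℝ) : LawL L D κ :=
  fun ε hε => (h ε hε).mono fun _ ha n hn _ => ha n hn

/-- the law in the quasi-Riemann range -/
theorem lawX (hκ0 : 1 / 2 ≤ κ0) (h : P2 κ0 X) (hR : Rm (MS X) (4 * κ0 / Real.pi)) (x0 : ℝ) {κ κ' : ℝ} (hκ : 0 < κ)
    (hκκ : κ < κ') {δ0 : ℝ} (h0 : 0 ≤ δ0) (h02 : δ0 ≤ 1 / 2) (hz : ∀ z, X z = 0 → |z.re| ≤ δ0)
    (hc : ∀ δ : ℝ, 0 ≤ δ → δ ≤ δ0 → (1 - 2 * δ) / (1 - δ) + 2 * κ' * δ < 2) :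
    LawL (fun a n => liX X (a - x0) n) (2 * κ0) κ := by
  intro ε hε
  have hκ' : 0 < κ' := by linarith
  have hpi := Real.pi_pos
  have h1 := law_b hR (κ := 2 * κ') (by linarith) (dnS h hκ' h0 h02 hz hc) (show 0 < ε / 2 by positivity)
  filter_upwards [(half_tendsto x0).eventually h1, asy_le x0 hκ hκκ, shift x0 (2 * κ0) hε,
    (half_tendsto x0).eventually_ge_atTop 1] with a k1 k2 k3 k4 n hn hnk
  have h2 := k1 n hn (hnk.trans k2)
  rw [li_scale, show 2 * ((a - x0) / 2) = a - x0 by ring, liX_eq hκ0 h (by linarith)] at h2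
  refine k3 n hn _ ?_
  have e : 4 * (2 * κ0) = 2 * Real.pi * (4 * κ0 / Real.pi) := by field_simp
  rw [e]
  exact h2

/-- the law for all `n` -/
theorem lawX_rh (hκ0 : 1 / 2 ≤ κ0) (h : P2 κ0 X) (hR : Rm (MS X) (4 * κ0 / Real.pi)) (x0 : ℝ)
    (hz : ∀ z, X z = 0 → z.re = 0) : LawA (fun a n => liX X (a - x0) n) (2 * κ0) := by
  intro ε hε
  have hpi := Real.pi_pos
  have h1 := law_rh hR (fun z hz0 => by
    have h2 : MX X (2 * z) ≠ 0 := hz0
    rcases Pool.Agent.N831.LP.MX_zero h h2 with h3 | h3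
    · have h4 := hz _ h3
      simp at h4
      exact h4
    · have h4 := hz _ h3
      simp at h4
      exact h4) (show 0 < ε / 2 by positivity)
  filter_upwards [(half_tendsto x0).eventually h1, shift x0 (2 * κ0) hε,
    (half_tendsto x0).eventually_ge_atTop 1] with a k1 k3 k4 n hn
  have h2 := k1 n hn
  rw [li_scale, show 2 * ((a - x0) / 2) = a - x0 by ring, liX_eq hκ0 h (by linarith)] at h2
  refine k3 n hn _ ?_
  have e : 4 * (2 * κ0) = 2 * Real.pi * (4 * κ0 / Real.pi) := by field_simp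
  rw [e]
  exact h2

/-- all the statements on the law -/
structure AllLaw (Λ : ℂ → ℂ) (L : ℝ → ℕ → ℝ) (x D : ℝ) : Prop where
  two : ∀ κ : ℝ, κ < 2 → LawL L D κ
  strip : ∀ d : ℝ, 0 < d → d < 1 / 2 → ZeroFree Λ (x + d) → ∀ κ : ℝ, κ < 1 / (2 * d * (1 - d)) → LawL L D κ
  quasi : (∃ κ : ℝ, 2 < κ ∧ LawL L D κ) ↔ ∃ d : ℝ, d < 1 / 2 ∧ ZeroFree Λ (x + d)
  rh : (∀ s : ℂ, Λ s = 0 → s.re = x) ↔ LawA L D

theorem allLaw {Λ : ℂ → ℂ} {v : ℂ} (hκ0 : 1 / 2 ≤ κ0) (hv : v ≠ 0) {x : ℝ}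
    (h : P2 κ0 (fun z => v * Λ ((x : ℂ) + z))) (hR : Rm (MS (fun z => v * Λ ((x : ℂ) + z))) (4 * κ0 / Real.pi))
    {L : ℝ → ℕ → ℝ} (hL : ∀ a n, L a n = ∑' ρ : {ρ : ℂ // Λ ρ = 0}, (analyticOrderNatAt Λ ρ : ℝ) *
      (1 - (((ρ : ℂ) - a) / (ρ + a - 2 * x)) ^ n).re) : AllLaw Λ L x (2 * κ0) := by
  obtain ⟨m, hm⟩ : ∃ m : ℝ, m = 2 * x := ⟨_, rfl⟩
  have hx : x = m / 2 := by rw [hm]; ring
  have hL' : L = lam Λ m := by
    funext a n
    rw [hL]
    unfold lam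
    rw [hm]
    push_cast
    rfl
  have hκp : 0 < κ0 := by linarith
  rw [hx] at h hR
  have hfun : (fun a n => liX (fun z => v * Λ (((m / 2 : ℝ) : ℂ) + z)) (a - m / 2) n) = lam Λ m := by
    funext a n
    exact (lam_eq hv h a n).symm
  -- the quasi-Riemann range
  have hquasi : ∀ d : ℝ, 0 < d → d ≤ 1 / 2 → (∀ z, (fun z => v * Λ (((m / 2 : ℝ) : ℂ) + z)) z = 0 → |z.re| ≤ d) →
      ∀ κ : ℝ, κ < 1 / (2 * (d * (1 - d))) → LawL (lam Λ m) (2 * κ0) κ := by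
    intro d hd hd2 hz κ hκ
    have h3 : 0 < d * (1 - d) := mul_pos hd (by linarith)
    have h4 : max κ 0 < 1 / (2 * (d * (1 - d))) := max_lt hκ (by positivity)
    obtain ⟨κ', h5, h6⟩ := exists_between h4
    obtain ⟨κ1, h7, h8⟩ := exists_between h5
    have h9 : 0 < κ1 := (le_max_right _ _).trans_lt h7
    have h10 : κ ≤ κ1 := (le_max_left _ _).trans h7.le
    have h11 : 0 < κ' := h9.trans h8
    rw [lt_div_iff₀ (by positivity)] at h6
    have h12 := lawX hκ0 h hR (m / 2) h9 h8 hd.le hd2 hz (cond hd.le hd2 (by linarith) h11)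
    rw [hfun] at h12
    exact h12.mono h10
  have hneg : ∀ {κ : ℝ}, 0 < κ → LawL (lam Λ m) (2 * κ0) κ → ZeroFree Λ (m / 2 + 1 / κ) := by
    intro κ hκ hlaw
    refine zeroFree_of hκ0 hv h hκ (Eventually.frequently ?_)
    filter_upwards [hlaw (2 * κ0) (by positivity), eventually_ge_atTop (1 : ℝ)] with a ha ha1 n hn hnk
    have h1 := (abs_le.1 (ha n hn hnk)).1
    linarith
  have hq : (∃ d : ℝ, d < 1 / 2 ∧ ZeroFree Λ (m / 2 + d)) → ∃ κ : ℝ, 2 < κ ∧ LawL (lam Λ m) (2 * κ0) κ := by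
    rintro ⟨d, hd, hz⟩
    obtain ⟨d', hd'⟩ : ∃ d' : ℝ, d' = max d (1 / 4) := ⟨_, rfl⟩
    have h1 : d' < 1 / 2 := by rw [hd']; exact max_lt hd (by norm_num)
    have h2 : 0 < d' := by rw [hd']; exact lt_of_lt_of_le (by norm_num) (le_max_right _ _)
    have hz' : ZeroFree Λ (m / 2 + d') := fun s hs => hz s (by
      have := le_max_left d (1 / 4)
      rw [← hd'] at this
      linarith)
    have h3 : 2 < 1 / (2 * (d' * (1 - d'))) := by
      have h5 : 0 < d' * (1 - d') := mul_pos h2 (by linarith)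
      rw [lt_div_iff₀ (by positivity)]
      nlinarith [sq_pos_of_pos (sub_pos.2 h1)]
    obtain ⟨κ, h4, h5⟩ := exists_between h3
    exact ⟨κ, h4, hquasi d' h2 h1.le (symm_zero hv h hz') κ h5⟩
  rw [hL', hx]
  refine ⟨fun κ hκ => ?_, fun d h1 h2 h3 κ hκ => ?_, ⟨fun ⟨κ, h1, h2⟩ => ⟨1 / κ, ?_, hneg (by linarith) h2⟩, hq⟩,
    ⟨fun h1 => ?_, fun h1 => ?_⟩⟩
  · refine hquasi (1 / 2) (by norm_num) le_rfl h.pl.strip κ ?_
    norm_num
    exact hκ
  · refine hquasi d h1 h2.le (symm_zero hv h h3) κ ?_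
    rwa [← mul_assoc]
  · exact one_div_lt_one_div_of_lt (by norm_num) h1
  · have h2 := lawX_rh hκ0 h hR (m / 2) (fun z hz => by
      have h3 : Λ (((m / 2 : ℝ) : ℂ) + z) = 0 := (mul_eq_zero.1 hz).resolve_left hv
      have h4 := h1 _ h3
      rw [Complex.add_re, Complex.ofReal_re] at h4
      linarith)
    rw [hfun] at h2
    exact h2
  · have key : ∀ s : ℂ, Λ s = 0 → s.re ≤ m / 2 := by
      intro s h0
      by_contra h2
      push Not at h2
      have h3 : 0 < s.re - m / 2 := by linarith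
      have h4 := hneg (κ := 2 / (s.re - m / 2)) (by positivity) (h1.lawL _)
      refine h4 s ?_ h0
      rw [one_div_div]
      linarith
    intro s h0
    refine le_antisymm (key s h0) ?_
    have h1 : (fun z => v * Λ (((m / 2 : ℝ) : ℂ) + z)) (s - ((m / 2 : ℝ) : ℂ)) = 0 := by
      show v * Λ (((m / 2 : ℝ) : ℂ) + (s - ((m / 2 : ℝ) : ℂ))) = 0
      rw [add_sub_cancel, h0, mul_zero]
    have h2 := symm_zero hv h (θ := 0) (fun w hw hw0 => by
      have := key w hw0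
      linarith) _ h1
    rw [Complex.sub_re, Complex.ofReal_re] at h2
    have h3 := abs_nonpos_iff.1 h2
    linarith

end

end Pool.Agent.U742.LA
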